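import Pool.Agent.Lib.MP_1a91b9_ntX.R.Cs

/-!
# R: the complex conjugation of `𝓞 K` and the cubic residue symbol

PROOF (complete). `coord`: every element is `p + q ω` (copy the proof of `kf_repr`, file
`Pool/Agent/Lib/MP_1a91b9_ntT/S6/KF.lean`; that file can also be imported). `coord_unique`: if `q ≠ q'` then `ω` is
rational: take the images under `embK` (`S4.embK_omO`, imaginary part of `zt`, or: `ω = r` rational contradicts
`r ^ 2 + r + 1 > 0`, as in `S4.u4_conj`). `cjr_cjr`: `coord` and `cjr_om`.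
`mul_cjr`: the norm form is `p ^ 2 - p q + q ^ 2`; `Ideal.absNorm (span {a}) ^ 2` is the norm of the ideal
`span {a * cjr a}` and `a * cjr a = n` with `n` a natural number, `S4.u4_absNorm_p n : absNorm (span {n}) = n ^ 2`
(`absNorm_cI`: see the end of the proof of `S4.exists_psi`, file S4/Psi.lean, `Algebra.norm_eq_of_algEquiv`; or: the
quotients are isomorphic (`Ideal.quotientEquiv`) and `Ideal.absNorm_apply`, `Submodule.cardQuot_apply`, `Nat.card_congr`).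
`cjr_w3`: `cjr omO = -1 - omO = omO ^ 2`. `cs_cI`: apply `cjr` to `cs_spec`, `absNorm_cI`, `cs_eq`.
-/

set_option autoImplicit false

namespace Pool.Agent.Lib.MP_1a91b9_ntX.R

open NumberField IsDedekindDomain Pool.Agent.Lib.MP_1a91b9_ntT
open Pool.Agent.Lib.MP_1a91b9_ntT.S4 (omO omO_eq)

theorem coord (a : 𝓞 K) : ∃ p q : ℤ, a = (p : 𝓞 K) + (q : 𝓞 K) * omO := by
  obtain ⟨f, hf, ha⟩ := om_spec.integralPowerBasis.exists_eq_aeval a
  rw [om_spec.integralPowerBasis_dim] at hf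
  have h2 : Nat.totient 3 = 2 := by decide
  rw [h2] at hf
  have h3 := Polynomial.eq_X_add_C_of_natDegree_le_one (p := f) (by omega)
  rw [om_spec.integralPowerBasis_gen] at ha
  refine ⟨f.coeff 0, f.coeff 1, ?_⟩
  rw [ha, h3]
  have h4 : om_spec.toInteger = omO := rfl
  rw [h4]
  simp only [map_add, map_mul, Polynomial.aeval_C, Polynomial.aeval_X, Polynomial.coeff_add,
    Polynomial.coeff_C_mul, Polynomial.coeff_X_zero, Polynomial.coeff_C_zero, mul_zero, zero_add,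
    Polynomial.coeff_X_one, mul_one, Polynomial.coeff_C_succ, add_zero]
  rw [add_comm]
  simp

theorem coord_unique {p q p' q' : ℤ}
    (h : (p : 𝓞 K) + (q : 𝓞 K) * omO = (p' : 𝓞 K) + (q' : 𝓞 K) * omO) : p = p' ∧ q = q' := by
  have h1 : (((p - p') ^ 2 - (p - p') * (q - q') + (q - q') ^ 2 : ℤ) : 𝓞 K) = ((0 : ℤ) : 𝓞 K) := by
    push_cast
    linear_combination ((p : 𝓞 K) - p' - (q - q') - (q - q') * omO) * h +
      ((q : 𝓞 K) - q') ^ 2 * omO_eq
  have h2 := Int.cast_injective h1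
  have h3 : q - q' = 0 := by nlinarith [sq_nonneg (2 * (p - p') - (q - q')), sq_nonneg (q - q')]
  have h4 : p - p' = 0 := by
    rw [h3] at h2
    have h5 : (p - p') ^ 2 = 0 := by linear_combination h2
    exact pow_eq_zero_iff (two_ne_zero) |>.1 h5
  exact ⟨sub_eq_zero.1 h4, sub_eq_zero.1 h3⟩

/-- the complex conjugation -/
noncomputable def cjr : 𝓞 K ≃+* 𝓞 K := (S4.u4_conj omO omO_eq).choose

theorem cjr_om : cjr omO = -1 - omO := (S4.u4_conj omO omO_eq).choose_spec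

theorem cjr_cjr (x : 𝓞 K) : cjr (cjr x) = x := by
  obtain ⟨p, q, rfl⟩ := coord x
  simp only [map_add, map_mul, map_intCast, cjr_om, map_sub, map_neg, map_one]
  ring

/-- the conjugate ideal -/
noncomputable def cI (I : Ideal (𝓞 K)) : Ideal (𝓞 K) := I.map cjr

theorem mem_cI {I : Ideal (𝓞 K)} {x : 𝓞 K} : cjr x ∈ cI I ↔ x ∈ I := by
  rw [cI]
  constructor
  · intro h
    obtain ⟨y, hy, hxy⟩ := (Ideal.mem_map_of_equiv cjr (cjr x)).1 h
    rwa [← cjr.injective hxy]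
  · intro h
    exact Ideal.mem_map_of_mem _ h

theorem cI_cI (I : Ideal (𝓞 K)) : cI (cI I) = I := by
  ext x
  rw [← cjr_cjr x, mem_cI, mem_cI, cjr_cjr]

theorem cI_mul (I J : Ideal (𝓞 K)) : cI (I * J) = cI I * cI J := by
  exact Ideal.map_mul _ _ _

theorem cI_span (a : 𝓞 K) : cI (Ideal.span {a}) = Ideal.span {cjr a} := by
  rw [cI, Ideal.map_span, Set.image_singleton]

theorem absNorm_cI (I : Ideal (𝓞 K)) : Ideal.absNorm (cI I) = Ideal.absNorm I := by
  rw [Ideal.absNorm_apply, Ideal.absNorm_apply, Submodule.cardQuot_apply, Submodule.cardQuot_apply]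
  exact (Nat.card_congr (Ideal.quotientEquiv I (cI I) cjr rfl).toEquiv).symm

private theorem Cj_norm (p q : ℤ) :
    ((Ideal.absNorm (Ideal.span {(p : 𝓞 K) + (q : 𝓞 K) * omO}) : ℕ) : ℤ) = p ^ 2 - p * q + q ^ 2 := by
  obtain ⟨a, ha⟩ : ∃ a, a = (p : 𝓞 K) + (q : 𝓞 K) * omO := ⟨_, rfl⟩
  have hnn : 0 ≤ p ^ 2 - p * q + q ^ 2 := by nlinarith [sq_nonneg (2 * p - q), sq_nonneg q]
  obtain ⟨n, hn⟩ := Int.eq_ofNat_of_zero_le hnn
  have h1 : a * cjr a = (n : 𝓞 K) := by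
    have e : (n : 𝓞 K) = ((p ^ 2 - p * q + q ^ 2 : ℤ) : 𝓞 K) := by
      rw [hn]
      exact (Int.cast_natCast n).symm
    rw [e, ha]
    simp only [map_add, map_mul, map_intCast, cjr_om]
    push_cast
    linear_combination -(q : 𝓞 K) ^ 2 * omO_eq
  rw [← ha, hn]
  have h2 : Ideal.absNorm (Ideal.span {a}) ^ 2 = n ^ 2 := by
    rw [← S4.u4_absNorm_p (K := K) n, ← h1, ← Ideal.span_singleton_mul_span_singleton, map_mul,
      ← cI_span, absNorm_cI, pow_two]
  exact_mod_cast (Nat.pow_left_injective (n := 2) (by norm_num)) h2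

theorem mul_cjr (a : 𝓞 K) : a * cjr a = ((Ideal.absNorm (Ideal.span {a}) : ℕ) : 𝓞 K) := by
  obtain ⟨p, q, rfl⟩ := coord a
  obtain ⟨N, hN⟩ : ∃ N, N = Ideal.absNorm (Ideal.span {(p : 𝓞 K) + (q : 𝓞 K) * omO}) := ⟨_, rfl⟩
  have h1 := Cj_norm p q
  rw [← hN] at h1 ⊢
  have e : (N : 𝓞 K) = ((p ^ 2 - p * q + q ^ 2 : ℤ) : 𝓞 K) := by
    rw [← h1]
    exact (Int.cast_natCast N).symm
  rw [e]
  simp only [map_add, map_mul, map_intCast, cjr_om]
  push_cast
  linear_combination -(q : 𝓞 K) ^ 2 * omO_eq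

/-- the norm form -/
theorem norm_form (p q : ℤ) :
    ((Ideal.absNorm (Ideal.span {(p : 𝓞 K) + (q : 𝓞 K) * omO}) : ℕ) : ℤ) = p ^ 2 - p * q + q ^ 2 := by
  exact Cj_norm p q

theorem G3.cI {P : Ideal (𝓞 K)} (h : G3 P) : G3 (cI P) := by
  refine ⟨?_, ?_, ?_⟩
  · have i1 := h.pr
    exact Ideal.map_isPrime_of_equiv cjr
  · intro h0
    apply h.ne
    rw [← cI_cI P, h0]
    exact Ideal.map_bot
  · intro h0
    apply h.three
    rw [← mem_cI, map_ofNat]
    exact h0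

theorem cjr_w3 (c : ZMod 3) : cjr (w3 c : 𝓞 K) = (w3 (-c) : 𝓞 K) := by
  have h1 : cjr omO = ((omU ^ 2 : (𝓞 K)ˣ) : 𝓞 K) := by
    rw [cjr_om, Units.val_pow_eq_pow_val, omU_val]
    linear_combination -omO_eq
  obtain ⟨n, rfl⟩ : ∃ n : ℕ, (n : ZMod 3) = c := ⟨c.val, ZMod.natCast_zmod_val c⟩
  have h2 : -(n : ZMod 3) = ((2 * n : ℕ) : ZMod 3) := by
    have h3 : (3 : ZMod 3) = 0 := by decide
    push_cast
    linear_combination -(n : ZMod 3) * h3
  rw [h2, w3_natCast, w3_natCast, Units.val_pow_eq_pow_val, map_pow, omU_val, h1,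
    ← Units.val_pow_eq_pow_val, ← pow_mul]

theorem cs_cI {P : Ideal (𝓞 K)} (h : G3 P) {x : 𝓞 K} (hx : x ∉ P) :
    cs (cI P) (cjr x) = -cs P x := by
  have h1 : cjr x ∉ cI P := fun h0 => hx (mem_cI.1 h0)
  refine cs_eq h.cI h1 _ ?_
  rw [absNorm_cI, ← cjr_w3, ← map_pow, ← map_sub, mem_cI]
  exact cs_spec h hx

/-- the symbol of a rational number at a prime which is its own conjugate -/
theorem cs_int {P : Ideal (𝓞 K)} (h : G3 P) (hc : cI P = P) (n : ℤ) (hn : (n : 𝓞 K) ∉ P) :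
    cs P (n : 𝓞 K) = 0 := by
  have h1 := cs_cI h hn
  rw [hc, map_intCast] at h1
  have h4 : ∀ c : ZMod 3, c = -c → c = 0 := by decide
  exact h4 _ h1

end Pool.Agent.Lib.MP_1a91b9_ntX.R
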