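import Pool.Agent.Lib.MP_1a91b9_ntT.S4.PsiDef

/-!
# R: the cubic residue symbol of `𝓞 K`, `K = ℚ(√-3)`

`w3 c = ω ^ c` for `c : ZMod 3`. `G3 P`: `P` is a nonzero prime ideal not containing `3`. `cs P x : ZMod 3` is the
exponent of the cubic residue symbol: `w3 (cs P x)` is congruent to `x ^ ((N P - 1) / 3)` modulo `P`.

PROOF (complete). `omU_pow`: from `omO_eq`, `omO ^ 3 = 1`. `w3_natCast`: `(n : ZMod 3).val = n % 3` (`ZMod.val_natCast`)
and `omU ^ 3 = 1` (`pow_mod_orderOf`-like: `pow_eq_pow_mod`). `w3_add`: write `c, d` as casts of naturals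
(`ZMod.natCast_zmod_val`) and use `w3_natCast`, `pow_add`. `w3_neg`: `w3_add`, `w3_zero`.
`G3.inj`: `c` and `d` are `0, 1, 2` (`fin_cases` or `decide`-style case analysis); for `c ≠ d` the difference is a unit
times `1 - ω` and `(1 - ω) (1 - ω ^ 2) = 3`, so `3 ∈ P`.
`G3.dvd`: `S4.u4_three_dvd` for the place `⟨P, _, _⟩` and `nrm_eq` (namespace `Pool.Agent.Lib.MP_1a91b9_nt`).
`G3.fermat`: `𝓞 K ⧸ P` is a finite field with `Ideal.absNorm P` elements (as in the proof of `S4.u4_three_dvd`),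
`FiniteField.pow_card_sub_one_eq_one`.
`cs_spec`: `y := x ^ ((N P - 1) / 3)` has `y ^ 3 - 1 = (y - 1) (y - ω) (y - ω ^ 2) ∈ P` by `G3.fermat`, `G3.dvd`.
`cs_eq`: `cs_spec` and `G3.inj`. All the others from `cs_eq`.
-/

set_option autoImplicit false

namespace Pool.Agent.Lib.MP_1a91b9_ntX.R

open NumberField IsDedekindDomain Pool.Agent.Lib.MP_1a91b9_ntT
open Pool.Agent.Lib.MP_1a91b9_ntT.S4 (omO omO_eq)

/-- the unit `ω` -/
noncomputable def omU : (𝓞 K)ˣ where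
  val := omO
  inv := omO ^ 2
  val_inv := by linear_combination (omO - 1) * omO_eq
  inv_val := by linear_combination (omO - 1) * omO_eq

theorem omU_val : (omU : 𝓞 K) = omO := rfl

theorem omU_pow : omU ^ 3 = 1 := by
  apply Units.ext
  rw [Units.val_pow_eq_pow_val, omU_val, Units.val_one]
  linear_combination (omO - 1) * omO_eq

/-- the unit `ω ^ c` -/
noncomputable def w3 (c : ZMod 3) : (𝓞 K)ˣ := omU ^ c.val

theorem w3_natCast (n : ℕ) : w3 (n : ZMod 3) = omU ^ n := by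
  rw [w3, ZMod.val_natCast]
  exact (pow_eq_pow_mod n omU_pow).symm

theorem w3_zero : w3 0 = 1 := by
  rw [w3, ZMod.val_zero, pow_zero]

theorem w3_add (c d : ZMod 3) : w3 (c + d) = w3 c * w3 d := by
  obtain ⟨m, rfl⟩ : ∃ m : ℕ, (m : ZMod 3) = c := ⟨c.val, ZMod.natCast_zmod_val c⟩
  obtain ⟨n, rfl⟩ : ∃ n : ℕ, (n : ZMod 3) = d := ⟨d.val, ZMod.natCast_zmod_val d⟩
  rw [← Nat.cast_add, w3_natCast, w3_natCast, w3_natCast, pow_add]

theorem w3_neg (c : ZMod 3) : w3 (-c) = (w3 c)⁻¹ := by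
  refine eq_inv_of_mul_eq_one_left ?_
  rw [← w3_add, neg_add_cancel, w3_zero]

/-- a nonzero prime ideal of `𝓞 K` which does not contain `3` -/
structure G3 (P : Ideal (𝓞 K)) : Prop where
  pr : P.IsPrime
  ne : P ≠ ⊥
  three : (3 : 𝓞 K) ∉ P

section
variable {P : Ideal (𝓞 K)}

theorem G3.inj (h : G3 P) {c d : ZMod 3} (hcd : (w3 c : 𝓞 K) - (w3 d : 𝓞 K) ∈ P) : c = d := by
  have hP := h.pr
  by_contra hne
  have h1 : (w3 c : 𝓞 K) - (w3 d : 𝓞 K) = (w3 d : 𝓞 K) * ((w3 (c - d) : 𝓞 K) - 1) := by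
    have h2 : w3 c = w3 d * w3 (c - d) := by rw [← w3_add, add_sub_cancel]
    rw [h2, Units.val_mul]
    ring
  rw [h1] at hcd
  rcases hP.mem_or_mem hcd with h2 | h2
  · exact hP.ne_top (Ideal.eq_top_of_isUnit_mem _ h2 (w3 d).isUnit)
  · have h0 : c - d ≠ 0 := sub_ne_zero.2 hne
    have h3 : ∀ e : ZMod 3, e = 0 ∨ e = ((1 : ℕ) : ZMod 3) ∨ e = ((2 : ℕ) : ZMod 3) := by decide
    rcases h3 (c - d) with h4 | h4 | h4
    · exact h0 h4
    · rw [h4, w3_natCast, pow_one, omU_val] at h2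
      apply h.three
      have e : (3 : 𝓞 K) = (omO - 1) * (-(omO + 2)) := by linear_combination omO_eq
      rw [e]
      exact Ideal.mul_mem_right _ _ h2
    · rw [h4, w3_natCast, Units.val_pow_eq_pow_val, omU_val] at h2
      apply h.three
      have e : (3 : 𝓞 K) = (omO ^ 2 - 1) * (omO - 1) := by
        linear_combination (2 - omO) * omO_eq
      rw [e]
      exact Ideal.mul_mem_right _ _ h2

theorem G3.dvd (h : G3 P) : 3 ∣ Ideal.absNorm P - 1 := by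
  have h1 := S4.u4_three_dvd (⟨P, h.pr, h.ne⟩ : HeightOneSpectrum (𝓞 K)) h.three omO omO_eq
  rw [Pool.Agent.Lib.MP_1a91b9_nt.nrm_eq] at h1
  exact h1

theorem G3.one_lt (h : G3 P) : 1 < Ideal.absNorm P := by
  have h1 : Ideal.absNorm P ≠ 0 := by
    rw [Ne, Ideal.absNorm_eq_zero_iff]
    exact h.ne
  have h2 : Ideal.absNorm P ≠ 1 := by
    rw [Ne, Ideal.absNorm_eq_one_iff]
    exact h.pr.ne_top
  omega

theorem G3.fermat (h : G3 P) {x : 𝓞 K} (hx : x ∉ P) : x ^ (Ideal.absNorm P - 1) - 1 ∈ P := by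
  classical
  have i0 := h.pr
  have i1 : P.IsMaximal := Ideal.IsPrime.isMaximal h.pr h.ne
  let _ : Field (𝓞 K ⧸ P) := Ideal.Quotient.field _
  have i2 : Finite (𝓞 K ⧸ P) := Ideal.finiteQuotientOfFreeOfNeBot _ h.ne
  let _ : Fintype (𝓞 K ⧸ P) := Fintype.ofFinite _
  have h1 : Fintype.card (𝓞 K ⧸ P) = Ideal.absNorm P := by
    rw [← Nat.card_eq_fintype_card]
    rfl
  have h2 : (Ideal.Quotient.mk P x) ≠ 0 := fun h0 => hx (Ideal.Quotient.eq_zero_iff_mem.1 h0)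
  rw [← Ideal.Quotient.eq_zero_iff_mem, map_sub, map_pow, map_one, ← h1,
    FiniteField.pow_card_sub_one_eq_one _ h2, sub_self]

open Classical in
/-- the exponent of the cubic residue symbol -/
noncomputable def cs (P : Ideal (𝓞 K)) (x : 𝓞 K) : ZMod 3 :=
  if h : ∃ c : ZMod 3, (w3 c : 𝓞 K) - x ^ ((Ideal.absNorm P - 1) / 3) ∈ P then h.choose else 0

theorem cs_spec (h : G3 P) {x : 𝓞 K} (hx : x ∉ P) :
    (w3 (cs P x) : 𝓞 K) - x ^ ((Ideal.absNorm P - 1) / 3) ∈ P := by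
  have key : ∃ c : ZMod 3, (w3 c : 𝓞 K) - x ^ ((Ideal.absNorm P - 1) / 3) ∈ P := by
    have hP := h.pr
    obtain ⟨y, hy⟩ : ∃ y, y = x ^ ((Ideal.absNorm P - 1) / 3) := ⟨_, rfl⟩
    have h1 : y ^ 3 - 1 ∈ P := by
      rw [hy, ← pow_mul, Nat.div_mul_cancel h.dvd]
      exact h.fermat hx
    have e : y ^ 3 - 1 = (1 - y) * ((omO - y) * (-(omO ^ 2 - y))) := by
      linear_combination (y ^ 2 - y + (1 - y) * (omO - 1)) * omO_eq
    rw [← hy]
    rw [e] at h1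
    rcases hP.mem_or_mem h1 with h2 | h2
    · refine ⟨0, ?_⟩
      rw [w3_zero, Units.val_one]
      exact h2
    · rcases hP.mem_or_mem h2 with h3 | h3
      · refine ⟨((1 : ℕ) : ZMod 3), ?_⟩
        rw [w3_natCast, pow_one, omU_val]
        exact h3
      · refine ⟨((2 : ℕ) : ZMod 3), ?_⟩
        rw [w3_natCast, Units.val_pow_eq_pow_val, omU_val]
        exact neg_mem_iff.1 h3
  rw [cs, dif_pos key]
  exact key.choose_spec

theorem cs_eq (h : G3 P) {x : 𝓞 K} (hx : x ∉ P) (c : ZMod 3)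
    (hc : (w3 c : 𝓞 K) - x ^ ((Ideal.absNorm P - 1) / 3) ∈ P) : cs P x = c := by
  refine h.inj ?_
  have h1 := Ideal.sub_mem _ (cs_spec h hx) hc
  rwa [sub_sub_sub_cancel_right] at h1

theorem cs_mul (h : G3 P) {x y : 𝓞 K} (hx : x ∉ P) (hy : y ∉ P) :
    cs P (x * y) = cs P x + cs P y := by
  have hP := h.pr
  have hxy : x * y ∉ P := fun h0 => (hP.mem_or_mem h0).elim hx hy
  refine cs_eq h hxy _ ?_
  obtain ⟨k, hk⟩ : ∃ k, k = (Ideal.absNorm P - 1) / 3 := ⟨_, rfl⟩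
  have h1 := cs_spec h hx
  have h2 := cs_spec h hy
  rw [← hk] at h1 h2 ⊢
  have e : (w3 (cs P x + cs P y) : 𝓞 K) - (x * y) ^ k =
      (w3 (cs P x) : 𝓞 K) * ((w3 (cs P y) : 𝓞 K) - y ^ k) +
        y ^ k * ((w3 (cs P x) : 𝓞 K) - x ^ k) := by
    rw [w3_add, Units.val_mul, mul_pow]
    ring
  rw [e]
  exact Ideal.add_mem _ (Ideal.mul_mem_left _ _ h2) (Ideal.mul_mem_left _ _ h1)

theorem cs_congr (h : G3 P) {x y : 𝓞 K} (hx : x ∉ P) (hxy : x - y ∈ P) : cs P x = cs P y := by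
  have hy : y ∉ P := by
    intro h0
    apply hx
    have h1 := Ideal.add_mem _ hxy h0
    rwa [sub_add_cancel] at h1
  refine cs_eq h hx _ ?_
  have h2 := cs_spec h hy
  have h3 : x ^ ((Ideal.absNorm P - 1) / 3) - y ^ ((Ideal.absNorm P - 1) / 3) ∈ P :=
    Ideal.mem_of_dvd _ (sub_dvd_pow_sub_pow x y _) hxy
  have h4 := Ideal.sub_mem _ h2 h3
  have e : ∀ a b c : 𝓞 K, a - b - (c - b) = a - c := by
    intro a b c
    ring
  rwa [e] at h4

theorem cs_one (h : G3 P) : cs P 1 = 0 := by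
  refine cs_eq h ?_ _ ?_
  · intro h0
    exact h.pr.ne_top ((Ideal.eq_top_iff_one _).2 h0)
  · rw [w3_zero, Units.val_one, one_pow, sub_self]
    exact Ideal.zero_mem _

theorem cs_neg (h : G3 P) {x : 𝓞 K} (hx : x ∉ P) : cs P (-x) = cs P x := by
  have h1 : (1 : 𝓞 K) ∉ P := fun h0 => h.pr.ne_top ((Ideal.eq_top_iff_one _).2 h0)
  have h2 : (-1 : 𝓞 K) ∉ P := fun h0 => h1 (neg_mem_iff.1 h0)
  have h3 := cs_mul h h2 h2
  rw [neg_mul_neg, one_mul, cs_one h] at h3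
  have h4 : ∀ c : ZMod 3, 0 = c + c → c = 0 := by decide
  rw [← neg_one_mul, cs_mul h h2 hx, h4 _ h3, zero_add]

theorem cs_pow (h : G3 P) {x : 𝓞 K} (hx : x ∉ P) (n : ℕ) : cs P (x ^ n) = n * cs P x := by
  have hP := h.pr
  induction n with
  | zero => rw [pow_zero, cs_one h, Nat.cast_zero, zero_mul]
  | succ n ih =>
    have h1 : x ^ n ∉ P := fun h0 => hx (hP.mem_of_pow_mem n h0)
    rw [pow_succ, cs_mul h h1 hx, ih, Nat.cast_succ]
    ring

theorem cs_om (h : G3 P) : cs P omO = (((Ideal.absNorm P - 1) / 3 : ℕ) : ZMod 3) := by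
  have h1 : omO ∉ P := by
    intro h0
    refine h.pr.ne_top (Ideal.eq_top_of_isUnit_mem _ h0 ?_)
    rw [← omU_val]
    exact omU.isUnit
  refine cs_eq h h1 _ ?_
  rw [w3_natCast, Units.val_pow_eq_pow_val, omU_val, sub_self]
  exact Ideal.zero_mem _

end

end Pool.Agent.Lib.MP_1a91b9_ntX.R
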