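import Pool.Agent.Lib.MP_1a91b9_ntX.R.Th

/-!
# R: the cubic residue symbol with a fixed rational numerator, as a function of the denominator

PROOF (complete). `m = 3 ^ k * m'` with `m'` prime to `3` (`Int` multiplicity: e.g. `m.natAbs = 3 ^ k * r`,
`Nat.exists_eq_pow_mul_and_not_dvd`, or `FiniteMultiplicity.exists_eq_pow_mul_and_not_dvd` in `ℤ`). `C α := k * Y α + X m' α`. `m' ∣ m`, so
coprimality with `m` gives coprimality with `m'` (`IsCoprime.of_isCoprime_of_dvd_right`).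
(1) `Y_mul`, `X_mul`. (2) `Y_nine`, `X_congr`, `X_one`. (3) `cs P m = k * cs P 3 + cs P m'` (`cs_mul`, `cs_pow`), `cs_three`, `cs_rat`
(`m' ∉ P` since `m ∉ P`). (4) `Y_int`, `X_int`.
-/

set_option autoImplicit false

namespace Pool.Agent.Lib.MP_1a91b9_ntX.R

open NumberField IsDedekindDomain Pool.Agent.Lib.MP_1a91b9_ntT
open Pool.Agent.Lib.MP_1a91b9_ntT.S4 (omO omO_eq)

private theorem Cu_factor (m : ℤ) (hm : m ≠ 0) :
    ∃ (k : ℕ) (m' : ℤ), m = 3 ^ k * m' ∧ ¬ (3 : ℤ) ∣ m' := by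
  have hf : FiniteMultiplicity (3 : ℤ) m := by
    apply Int.finiteMultiplicity_iff.mpr
    exact ⟨by decide, hm⟩
  obtain ⟨c, hc, hc'⟩ := hf.exists_eq_pow_mul_and_not_dvd
  exact ⟨multiplicity (3 : ℤ) m, c, hc, hc'⟩

theorem exists_cubic (m : ℤ) (hm : m ≠ 0) : ∃ C : 𝓞 K → ZMod 3,
    (∀ α β : 𝓞 K, (3 : 𝓞 K) ∣ α - 1 → (3 : 𝓞 K) ∣ β - 1 → IsCoprime α (m : 𝓞 K) →
      IsCoprime β (m : 𝓞 K) → C (α * β) = C α + C β) ∧
    (∀ α : 𝓞 K, ((9 * m : ℤ) : 𝓞 K) ∣ α - 1 → C α = 0) ∧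
    (∀ β : 𝓞 K, (3 : 𝓞 K) ∣ β - 1 → G3 (Ideal.span {β}) → (m : 𝓞 K) ∉ Ideal.span {β} →
      cs (Ideal.span {β}) (m : 𝓞 K) = C β) ∧
    (∀ n : ℤ, IsCoprime (n : 𝓞 K) (m : 𝓞 K) → C (n : 𝓞 K) = 0) := by
  obtain ⟨k, m', hmm, h3⟩ := Cu_factor m hm
  have hcast : (m : 𝓞 K) = 3 ^ k * (m' : 𝓞 K) := by
    rw [hmm]
    push_cast
    ring
  have hcop : ∀ α : 𝓞 K, IsCoprime α (m : 𝓞 K) → IsCoprime α (m' : 𝓞 K) := by
    intro α hα
    rw [hcast] at hα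
    exact hα.of_mul_right_right
  refine ⟨fun α => (k : ZMod 3) * Y α + X (m' : 𝓞 K) α, ?_, ?_, ?_, ?_⟩
  · intro α β ha hb hca hcb
    show (k : ZMod 3) * Y (α * β) + X (m' : 𝓞 K) (α * β) = _
    rw [Y_mul ha hb, X_mul h3 (hcop α hca) (hcop β hcb)]
    ring
  · intro α hα
    show (k : ZMod 3) * Y α + X (m' : 𝓞 K) α = 0
    have h9 : (9 : 𝓞 K) ∣ α - 1 := by
      refine dvd_trans ?_ hα
      rw [Int.cast_mul]
      exact ⟨(m : 𝓞 K), by push_cast; ring⟩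
    have hm' : (m' : 𝓞 K) ∣ 1 - α := by
      have h1 : (m' : 𝓞 K) ∣ α - 1 := by
        refine dvd_trans ?_ hα
        rw [Int.cast_mul, hcast]
        exact ⟨((9 : ℤ) : 𝓞 K) * 3 ^ k, by ring⟩
      have h2 := (dvd_neg (a := (m' : 𝓞 K))).mpr h1
      rw [neg_sub] at h2
      exact h2
    have hX : X (m' : 𝓞 K) 1 = X (m' : 𝓞 K) α := X_congr h3 isCoprime_one_left hm'
    rw [Y_nine h9, ← hX, X_one h3, mul_zero, add_zero]
  · intro β hβ hP hmP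
    show cs (Ideal.span {β}) (m : 𝓞 K) = (k : ZMod 3) * Y β + X (m' : 𝓞 K) β
    have hm'P : (m' : 𝓞 K) ∉ Ideal.span {β} := by
      intro h
      apply hmP
      rw [hcast]
      exact Ideal.mul_mem_left _ _ h
    have h3k : (3 : 𝓞 K) ^ k ∉ Ideal.span {β} := by
      intro h
      exact hP.three (hP.pr.mem_of_pow_mem k h)
    rw [hcast, cs_mul hP h3k hm'P, cs_pow hP hP.three, cs_three hβ hP, cs_rat hβ hP m' h3 hm'P]
  · intro n hn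
    show (k : ZMod 3) * Y (n : 𝓞 K) + X (m' : 𝓞 K) (n : 𝓞 K) = 0
    rw [Y_int, X_int h3 n (hcop _ hn), mul_zero, add_zero]

end Pool.Agent.Lib.MP_1a91b9_ntX.R
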