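import Pool.Agent.Lib.MP_1a91b9_ntX.HD
import Pool.Agent.Lib.MP_1a91b9_ntX.R.Cj

/-!
# R: the Hecke datum from a cubic and a quadratic symbol

`psD f C e I` is `β * e (N I) * ω ^ (C β)`, `β` the generator of `I` congruent to `1` modulo `3`, for `I` prime to `f`, and `0` otherwise.

PROOF (complete). `β := S4.psiK I`; `S4.psiK_of_coprime` (`I` is prime to `3` as `3 ∣ f`), `S4.psiK_span`, `S4.psiK_mul`, `S4.psiK_one`.
`IsCoprime I (span {f})` with `I = span {β}` gives `IsCoprime β f` (`Ideal.isCoprime_span_singleton_iff`) and `β` is coprime to `m` (`m ∣ f`), `N β` is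
coprime to `D1` in `ℤ`: `N β = β * cjr β` (`mul_cjr`), `cjr β` is coprime to `D1` as well (`IsCoprime.map`), so `(N β : 𝓞 K)` and `(D1 : 𝓞 K)` are coprime, and
then they are coprime in `ℤ` (a common prime divisor `p` would be a unit of `𝓞 K`; `S4.u4_absNorm_p` ).
`ray`: `9 m ∣ a - 1`, `C a = 0`; `D2 ∣ a - 1` gives `D2 ∣ N a - 1` (`N a = a * cjr a`, conjugate; the divisibility in `𝓞 K` of
an integer by an integer gives the divisibility in `ℤ`: coordinates, `coord`, `coord_unique`), so `e (N a) = 1`.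
`sym`: `P ∌ 6 D`, so `P` is `G3` and prime to `f` (`good`: if not coprime then `f ∈ P`), `x := (4 D) ^ ((N - 1) / 6)`, `6 ∣ N - 1` (`3 ∣ N - 1` by `G3.dvd`, `N` is
odd since `2 ∉ P`), `x ^ 3 = (4 D) ^ ((N - 1) / 2)` is `e N` modulo `P` (`hquad`), `x ^ 2 = (4 D) ^ ((N - 1) / 3)` is `w3 (cs P (4 D)) = w3 (C β)` modulo `P` (`hcub`).
So `x = x ^ 3 * x ^ (-2)`: precisely `x * w3 (C β) = x * x ^ 2 = x ^ 3 = e N` modulo `P`, so `x = e N * w3 (-C β)` modulo `P`: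
take `u := ± w3 (-C β)` with the sign `e N`. Then `u * (β * e N * w3 (C β)) = β`.
-/

set_option autoImplicit false

namespace Pool.Agent.Lib.MP_1a91b9_ntX.R

open NumberField IsDedekindDomain Pool.Agent.Lib.MP_1a91b9_ntT
open Pool.Agent.Lib.MP_1a91b9_ntT.S4 (omO omO_eq)

open Classical in
/-- the Hecke character -/
noncomputable def psD (f : 𝓞 K) (C : 𝓞 K → ZMod 3) (e : ℕ → ℤ) (I : Ideal (𝓞 K)) : 𝓞 K :=
  if IsCoprime I (Ideal.span {f}) then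
    S4.psiK I * ((e (Ideal.absNorm I) : ℤ) : 𝓞 K) * (w3 (C (S4.psiK I)) : 𝓞 K)
  else 0

private theorem Fi_cop3 {f : 𝓞 K} (h3 : (3 : 𝓞 K) ∣ f) {I : Ideal (𝓞 K)}
    (hI : IsCoprime I (Ideal.span {f})) : IsCoprime I (Ideal.span {(3 : 𝓞 K)}) := by
  obtain ⟨c, hc⟩ := h3
  rw [hc, ← Ideal.span_singleton_mul_span_singleton] at hI
  exact IsCoprime.of_mul_right_left hI

private theorem Fi_gen {f : 𝓞 K} (h3 : (3 : 𝓞 K) ∣ f) {I : Ideal (𝓞 K)}
    (hI : IsCoprime I (Ideal.span {f})) :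
    (3 : 𝓞 K) ∣ S4.psiK I - 1 ∧ Ideal.span {S4.psiK I} = I ∧ IsCoprime (S4.psiK I) f := by
  obtain ⟨h1, h2⟩ := S4.psiK_of_coprime I (Fi_cop3 h3 hI)
  refine ⟨h1, h2, ?_⟩
  rw [← Ideal.isCoprime_span_singleton_iff, h2]
  exact hI

private theorem Fi_int_dvd {a b : ℤ} (h : (a : 𝓞 K) ∣ (b : 𝓞 K)) : a ∣ b := by
  obtain ⟨c, hc⟩ := h
  obtain ⟨p, q, rfl⟩ := coord c
  have h1 : ((b : ℤ) : 𝓞 K) + ((0 : ℤ) : 𝓞 K) * omO =
      ((a * p : ℤ) : 𝓞 K) + ((a * q : ℤ) : 𝓞 K) * omO := by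
    rw [hc]
    push_cast
    ring
  exact ⟨p, (coord_unique h1).1⟩

private theorem Fi_int_cop {a b : ℤ} (h : IsCoprime (a : 𝓞 K) (b : 𝓞 K)) : IsCoprime a b := by
  obtain ⟨x, y, hxy⟩ := h
  obtain ⟨p, q, rfl⟩ := coord x
  obtain ⟨r, s, rfl⟩ := coord y
  have h1 : ((p * a + r * b : ℤ) : 𝓞 K) + ((q * a + s * b : ℤ) : 𝓞 K) * omO =
      ((1 : ℤ) : 𝓞 K) + ((0 : ℤ) : 𝓞 K) * omO := by
    push_cast
    linear_combination hxy
  exact ⟨p, r, (coord_unique h1).1⟩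

private theorem Fi_norm_cop {f : 𝓞 K} {D1 : ℤ} (h3 : (3 : 𝓞 K) ∣ f) (h1 : (D1 : 𝓞 K) ∣ f)
    {I : Ideal (𝓞 K)} (hI : IsCoprime I (Ideal.span {f})) :
    IsCoprime ((Ideal.absNorm I : ℕ) : ℤ) D1 := by
  obtain ⟨_, h2, h4⟩ := Fi_gen h3 hI
  refine Fi_int_cop ?_
  have h5 : IsCoprime (S4.psiK I) (D1 : 𝓞 K) := IsCoprime.of_isCoprime_of_dvd_right h4 h1
  have h6 : IsCoprime (cjr (S4.psiK I)) (D1 : 𝓞 K) := by
    have := h5.map (cjr : 𝓞 K →+* 𝓞 K)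
    simpa using this
  have h7 : IsCoprime (S4.psiK I * cjr (S4.psiK I)) (D1 : 𝓞 K) := IsCoprime.mul_left h5 h6
  rw [mul_cjr, h2] at h7
  rw [Int.cast_natCast]
  exact h7

private theorem Fi_three_not_unit : ¬ IsUnit (3 : 𝓞 K) := by
  intro h
  have h5 : Ideal.span {(3 : 𝓞 K)} = ⊤ := Ideal.span_singleton_eq_top.2 h
  have e3 := S4.u4_absNorm_p (K := K) 3
  rw [Nat.cast_ofNat, h5, Ideal.absNorm_top] at e3
  omega

private theorem Fi_norm_pos {f : 𝓞 K} (h3 : (3 : 𝓞 K) ∣ f)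
    {I : Ideal (𝓞 K)} (hI : IsCoprime I (Ideal.span {f})) : 0 < Ideal.absNorm I := by
  rw [Nat.pos_iff_ne_zero]
  intro h0
  rw [Ideal.absNorm_eq_zero_iff] at h0
  have h4 := Fi_cop3 h3 hI
  rw [h0, Ideal.isCoprime_iff_sup_eq, bot_sup_eq, Ideal.span_singleton_eq_top] at h4
  exact Fi_three_not_unit h4

private theorem Fi_two_dvd (P : HeightOneSpectrum (𝓞 K)) (h2 : (2 : 𝓞 K) ∉ P.asIdeal) :
    2 ∣ Ideal.absNorm P.asIdeal - 1 := by
  classical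
  have hmax : P.asIdeal.IsMaximal := P.isMaximal
  let _ : Field (𝓞 K ⧸ P.asIdeal) := Ideal.Quotient.field _
  have hfin : Finite (𝓞 K ⧸ P.asIdeal) := P.asIdeal.finiteQuotientOfFreeOfNeBot P.ne_bot
  have := Fintype.ofFinite (𝓞 K ⧸ P.asIdeal)
  have hcard : Fintype.card (𝓞 K ⧸ P.asIdeal) = Ideal.absNorm P.asIdeal := by
    rw [Ideal.absNorm_apply, Submodule.cardQuot_apply, Nat.card_eq_fintype_card]
  have hord : orderOf (-1 : (𝓞 K ⧸ P.asIdeal)ˣ) = 2 := by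
    refine orderOf_eq_prime (p := 2) ?_ ?_
    · simp
    · intro h
      apply h2
      rw [← Ideal.Quotient.eq_zero_iff_mem, map_ofNat]
      have h1 := congrArg Units.val h
      rw [Units.val_neg, Units.val_one] at h1
      linear_combination -h1
  rw [← hcard, ← Fintype.card_units, ← hord]
  exact orderOf_dvd_card

/-- All the properties of the Hecke datum. `f` is the conductor, `m` the numerator of the cubic symbol `C`, `D1` the
integer to which the argument of `e` must be prime and `D2` the period of the quadratic symbol `e`. -/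
theorem hd_of (D f m D1 D2 : ℤ) (hf : f ≠ 0) (h3f : (3 : ℤ) ∣ f) (hmf : 9 * m ∣ f) (h1f : D1 ∣ f)
    (h2f : D2 ∣ f) (C : 𝓞 K → ZMod 3) (e : ℕ → ℤ)
    (hCm : ∀ α β : 𝓞 K, (3 : 𝓞 K) ∣ α - 1 → (3 : 𝓞 K) ∣ β - 1 → IsCoprime α (m : 𝓞 K) →
      IsCoprime β (m : 𝓞 K) → C (α * β) = C α + C β)
    (hC1 : ∀ α : 𝓞 K, ((9 * m : ℤ) : 𝓞 K) ∣ α - 1 → C α = 0)
    (he1 : e 1 = 1) (hem : ∀ a b : ℕ, 0 < a → 0 < b → e (a * b) = e a * e b)
    (hep : ∀ n : ℕ, D2 ∣ (n : ℤ) - 1 → e n = 1)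
    (hec : ∀ n : ℕ, IsCoprime (n : ℤ) D1 → e n = 1 ∨ e n = -1)
    (hcub : ∀ β : 𝓞 K, (3 : 𝓞 K) ∣ β - 1 → G3 (Ideal.span {β}) →
      ((6 * D : ℤ) : 𝓞 K) ∉ Ideal.span {β} → cs (Ideal.span {β}) ((4 * D : ℤ) : 𝓞 K) = C β)
    (hquad : ∀ P : Ideal (𝓞 K), G3 P → ((6 * D : ℤ) : 𝓞 K) ∉ P →
      ((4 * D : ℤ) : 𝓞 K) ^ ((Ideal.absNorm P - 1) / 2) -
        ((e (Ideal.absNorm P) : ℤ) : 𝓞 K) ∈ P)
    (hgood : ∀ P : HeightOneSpectrum (𝓞 K), (f : 𝓞 K) ∈ P.asIdeal →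
      ((6 * D : ℤ) : 𝓞 K) ∈ P.asIdeal)
    (hbad : ∀ P : HeightOneSpectrum (𝓞 K), ((6 * D : ℤ) : 𝓞 K) ∈ P.asIdeal →
      ¬ ((2 : 𝓞 K) ∈ P.asIdeal ∧ ∃ m : ℤ, D = 16 * (4 * m + 1)) → (f : 𝓞 K) ∈ P.asIdeal)
    (htwo : (∃ m : ℤ, D = 16 * (4 * m + 1)) → e 4 = 1 ∧ C (-2) = 0 ∧ IsCoprime (2 : 𝓞 K) (f : 𝓞 K)) :
    HDat D (f : 𝓞 K) (psD (f : 𝓞 K) C e) := by
  classical
  have h3F : (3 : 𝓞 K) ∣ (f : 𝓞 K) := by
    obtain ⟨c, hc⟩ := h3f
    exact ⟨(c : 𝓞 K), by rw [hc]; push_cast; ring⟩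
  have hmF : ((9 * m : ℤ) : 𝓞 K) ∣ (f : 𝓞 K) := by
    obtain ⟨c, hc⟩ := hmf
    exact ⟨(c : 𝓞 K), by rw [hc]; push_cast; ring⟩
  have hmF' : (m : 𝓞 K) ∣ (f : 𝓞 K) := by
    refine dvd_trans ⟨9, ?_⟩ hmF
    push_cast
    ring
  have h1F : (D1 : 𝓞 K) ∣ (f : 𝓞 K) := by
    obtain ⟨c, hc⟩ := h1f
    exact ⟨(c : 𝓞 K), by rw [hc]; push_cast; ring⟩
  have h2F : (D2 : 𝓞 K) ∣ (f : 𝓞 K) := by
    obtain ⟨c, hc⟩ := h2f
    exact ⟨(c : 𝓞 K), by rw [hc]; push_cast; ring⟩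
  have hpos : ∀ I : Ideal (𝓞 K), IsCoprime I (Ideal.span {(f : 𝓞 K)}) →
      psD (f : 𝓞 K) C e I = S4.psiK I * ((e (Ideal.absNorm I) : ℤ) : 𝓞 K) *
        (w3 (C (S4.psiK I)) : 𝓞 K) := by
    intro I hI
    rw [psD, if_pos hI]
  have hneg : ∀ I : Ideal (𝓞 K), ¬ IsCoprime I (Ideal.span {(f : 𝓞 K)}) →
      psD (f : 𝓞 K) C e I = 0 := by
    intro I hI
    rw [psD, if_neg hI]
  -- the sign
  have hsgn : ∀ I : Ideal (𝓞 K), IsCoprime I (Ideal.span {(f : 𝓞 K)}) →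
      ∃ s : (𝓞 K)ˣ, (s : 𝓞 K) = ((e (Ideal.absNorm I) : ℤ) : 𝓞 K) ∧ (s : 𝓞 K) * s = 1 := by
    intro I hI
    rcases hec _ (Fi_norm_cop h3F h1F hI) with h | h
    · exact ⟨1, by rw [h]; simp, by simp⟩
    · exact ⟨-1, by rw [h]; simp, by simp⟩
  have hG : ∀ P : HeightOneSpectrum (𝓞 K), ((6 * D : ℤ) : 𝓞 K) ∉ P.asIdeal →
      IsCoprime P.asIdeal (Ideal.span {(f : 𝓞 K)}) := by
    intro P h
    rw [Ideal.isCoprime_iff_sup_eq]
    by_contra hc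
    have h1 : P.asIdeal = P.asIdeal ⊔ Ideal.span {(f : 𝓞 K)} :=
      P.isMaximal.eq_of_le hc le_sup_left
    refine h (hgood P ?_)
    rw [h1]
    exact Ideal.mem_sup_right (Ideal.mem_span_singleton_self _)
  refine ⟨?_, h3F, ?_, ?_, ?_, hneg, ?_, ?_, hgood, hbad, ?_⟩
  · exact Int.cast_ne_zero.mpr hf
  · -- one
    rw [hpos 1 isCoprime_one_left, S4.psiK_one]
    have h1 : C 1 = 0 := hC1 1 (by rw [sub_self]; exact dvd_zero _)
    have h2 : Ideal.absNorm (1 : Ideal (𝓞 K)) = 1 := map_one _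
    rw [h1, h2, he1, w3_zero]
    simp
  · -- mul
    intro I J
    by_cases hI : IsCoprime I (Ideal.span {(f : 𝓞 K)})
    · by_cases hJ : IsCoprime J (Ideal.span {(f : 𝓞 K)})
      · obtain ⟨a1, a2, a3⟩ := Fi_gen h3F hI
        obtain ⟨b1, b2, b3⟩ := Fi_gen h3F hJ
        have hC := hCm _ _ a1 b1 (IsCoprime.of_isCoprime_of_dvd_right a3 hmF')
          (IsCoprime.of_isCoprime_of_dvd_right b3 hmF')
        rw [hpos _ (IsCoprime.mul_left hI hJ), hpos I hI, hpos J hJ, S4.psiK_mul, hC,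
          map_mul Ideal.absNorm, hem _ _ (Fi_norm_pos h3F hI) (Fi_norm_pos h3F hJ), w3_add]
        push_cast
        ring
      · rw [hneg J hJ, mul_zero, hneg]
        intro h
        exact hJ (IsCoprime.of_mul_left_right h)
    · rw [hneg I hI, zero_mul, hneg]
      intro h
      exact hI (IsCoprime.of_mul_left_left h)
  · -- span
    intro I hI
    obtain ⟨_, a2, _⟩ := Fi_gen h3F hI
    obtain ⟨s, hs, _⟩ := hsgn I hI
    rw [hpos I hI, ← hs, mul_assoc, ← Units.val_mul]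
    rw [Ideal.span_singleton_mul_right_unit (Units.isUnit _), a2]
  · -- ray
    intro a ha
    have hcop : IsCoprime (Ideal.span {a}) (Ideal.span {(f : 𝓞 K)}) := by
      rw [Ideal.isCoprime_span_singleton_iff]
      obtain ⟨c, hc⟩ := ha
      exact ⟨1, -c, by linear_combination hc⟩
    have hps : S4.psiK (Ideal.span {a}) = a := S4.psiK_span a (dvd_trans h3F ha)
    have hC0 : C a = 0 := hC1 a (dvd_trans hmF ha)
    have he0 : e (Ideal.absNorm (Ideal.span {a})) = 1 := by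
      refine hep _ (Fi_int_dvd ?_)
      refine dvd_trans h2F ?_
      obtain ⟨c, hc⟩ := ha
      have hc' : cjr a = 1 + (f : 𝓞 K) * cjr c := by
        have e1 : a = 1 + (f : 𝓞 K) * c := by linear_combination hc
        have e2 : cjr a = cjr (1 + (f : 𝓞 K) * c) := by rw [← e1]
        rw [e2, map_add, map_mul, map_one, map_intCast]
      push_cast
      rw [← mul_cjr, hc']
      exact ⟨c + cjr c + f * c * cjr c, by linear_combination (1 + (f : 𝓞 K) * cjr c) * hc⟩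
    rw [hpos _ hcop, hps, hC0, he0, w3_zero]
    simp
  · -- sym
    intro P hP
    have hcop := hG P hP
    obtain ⟨a1, a2, a3⟩ := Fi_gen h3F hcop
    have hprime : P.asIdeal.IsPrime := P.isPrime
    have hn2 : (2 : 𝓞 K) ∉ P.asIdeal := by
      intro h
      apply hP
      have : ((6 * D : ℤ) : 𝓞 K) = ((3 * D : ℤ) : 𝓞 K) * 2 := by push_cast; ring
      rw [this]
      exact Ideal.mul_mem_left _ _ h
    have hn3 : (3 : 𝓞 K) ∉ P.asIdeal := by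
      intro h
      apply hP
      have : ((6 * D : ℤ) : 𝓞 K) = ((2 * D : ℤ) : 𝓞 K) * 3 := by push_cast; ring
      rw [this]
      exact Ideal.mul_mem_left _ _ h
    have hnD : (D : 𝓞 K) ∉ P.asIdeal := by
      intro h
      apply hP
      have : ((6 * D : ℤ) : 𝓞 K) = 6 * (D : 𝓞 K) := by push_cast; ring
      rw [this]
      exact Ideal.mul_mem_left _ _ h
    have hG3 : G3 P.asIdeal := ⟨hprime, P.ne_bot, hn3⟩
    have hn4D : ((4 * D : ℤ) : 𝓞 K) ∉ P.asIdeal := by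
      intro h
      have e1 : ((4 * D : ℤ) : 𝓞 K) = 2 * (2 * (D : 𝓞 K)) := by push_cast; ring
      rw [e1] at h
      rcases hprime.mem_or_mem h with h | h
      · exact hn2 h
      · rcases hprime.mem_or_mem h with h | h
        · exact hn2 h
        · exact hnD h
    have hcb : cs P.asIdeal ((4 * D : ℤ) : 𝓞 K) = C (S4.psiK P.asIdeal) := by
      have h := hcub (S4.psiK P.asIdeal) a1 (by rw [a2]; exact hG3) (by rw [a2]; exact hP)
      rw [a2] at h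
      exact h
    obtain ⟨s, hs, hss⟩ := hsgn P.asIdeal hcop
    have hsp := cs_spec hG3 hn4D
    have hq := hquad P.asIdeal hG3 hP
    have h6 : 6 ∣ Ideal.absNorm P.asIdeal - 1 := by
      have h2 := Fi_two_dvd P hn2
      have h3 := hG3.dvd
      omega
    obtain ⟨k, hk⟩ := h6
    have k3 : (Ideal.absNorm P.asIdeal - 1) / 3 = 2 * k := by omega
    have k2 : (Ideal.absNorm P.asIdeal - 1) / 2 = 3 * k := by omega
    have k6 : (Ideal.absNorm P.asIdeal - 1) / 6 = k := by omega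
    rw [k3, hcb] at hsp
    rw [k2, ← hs] at hq
    rw [k6]
    set x : 𝓞 K := ((4 * D : ℤ) : 𝓞 K) ^ k with hx
    have e2 : ((4 * D : ℤ) : 𝓞 K) ^ (2 * k) = x ^ 2 := by rw [hx, ← pow_mul, mul_comm k]
    have e3 : ((4 * D : ℤ) : 𝓞 K) ^ (3 * k) = x ^ 3 := by rw [hx, ← pow_mul, mul_comm k]
    rw [e2] at hsp
    rw [e3] at hq
    set w : (𝓞 K)ˣ := w3 (C (S4.psiK P.asIdeal)) with hw
    have hwi : (w : 𝓞 K) * ((w⁻¹ : (𝓞 K)ˣ) : 𝓞 K) = 1 := Units.mul_inv w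
    refine ⟨s * w⁻¹, ?_, ?_⟩
    · have h1 : (w : 𝓞 K) * x - s ∈ P.asIdeal := by
        have h2 : (w : 𝓞 K) * x - s = x * ((w : 𝓞 K) - x ^ 2) + (x ^ 3 - s) := by ring
        rw [h2]
        exact Ideal.add_mem _ (Ideal.mul_mem_left _ _ hsp) hq
      have h3 : ((s * w⁻¹ : (𝓞 K)ˣ) : 𝓞 K) - x =
          (-((w⁻¹ : (𝓞 K)ˣ) : 𝓞 K)) * ((w : 𝓞 K) * x - s) := by
        rw [Units.val_mul]
        linear_combination x * hwi
      rw [h3]
      exact Ideal.mul_mem_left _ _ h1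
    · rw [hpos _ hcop, ← hs, Units.val_mul]
      have h4 : (s : 𝓞 K) * ((w⁻¹ : (𝓞 K)ˣ) : 𝓞 K) * (S4.psiK P.asIdeal * s * w) - 1 =
          S4.psiK P.asIdeal - 1 := by
        linear_combination (S4.psiK P.asIdeal * (w : 𝓞 K) * ((w⁻¹ : (𝓞 K)ˣ) : 𝓞 K)) * hss +
          S4.psiK P.asIdeal * hwi
      rw [h4]
      exact a1
  · -- two
    intro hD
    obtain ⟨t1, t2, t3⟩ := htwo hD
    have hcop : IsCoprime (Ideal.span {(2 : 𝓞 K)}) (Ideal.span {(f : 𝓞 K)}) := by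
      rw [Ideal.isCoprime_span_singleton_iff]
      exact t3
    have hps : S4.psiK (Ideal.span {(2 : 𝓞 K)}) = -2 := by
      have h1 : Ideal.span {(2 : 𝓞 K)} = Ideal.span {(-2 : 𝓞 K)} := by
        rw [Ideal.span_singleton_neg]
      rw [h1]
      exact S4.psiK_span _ ⟨-1, by norm_num⟩
    have hN : Ideal.absNorm (Ideal.span {(2 : 𝓞 K)}) = 4 := by
      have e2 := S4.u4_absNorm_p (K := K) 2
      rw [Nat.cast_ofNat] at e2
      rw [e2]
      norm_num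
    rw [hpos _ hcop, hps, hN, t1, t2, w3_zero]
    simp

end Pool.Agent.Lib.MP_1a91b9_ntX.R
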