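import Pool.Agent.Lib.MP_1a91b9_ntX.R.Cs

/-!
# R: the quadratic residue symbol

PROOF (complete). `quad_prime`: `P ∩ ℤ = (p)`, `p` a prime number, `p` not `2`, `3`, not dividing `D`. If `N P = p`
(`p = 1` modulo `3` or not, no matter): `jacobiSym D p = legendreSym p D` (`jacobiSym.legendreSym.to_jacobiSym`) and
`D ^ (p / 2) = legendreSym p D` in `ZMod p` (`legendreSym.eq_pow`), so `p` divides the difference, and `p ∈ P`. If `N P = p ^ 2`:
`(p ^ 2 - 1) / 2 = (p - 1) * ((p + 1) / 2)`, `D ^ (p - 1) = 1` modulo `p` and `jacobiSym D (p ^ 2) = (jacobiSym D p) ^ 2 = 1` (`jacobiSym.pow_right`,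
`jacobiSym.sq_one`). That `N P` is `p` or `p ^ 2`: `p ∈ P` so `N P ∣ N (p) = p ^ 2` (`S4.u4_absNorm_p`, `Ideal.absNorm_dvd_absNorm_of_le`),
and `N P ≠ 1`.
`exists_quad_A`: `e n := jacobiSym D n` for `n` odd (also for the others). `e 1`: `jacobiSym.one_right`; `mul`: `jacobiSym.mul_right`
(needs nonzero arguments; for `0`: define `e 0 := 0` if `0` causes a problem, the statement asks the multiplicativity only for positive `a, b`); period: `jacobiSym.mod_right`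
(`n` odd because `4 D ∣ n - 1`). `e n = 1` or `-1`: `jacobiSym.eq_one_or_neg_one`, `n` prime to `D`.
`exists_quad_B`: `e n := jacobiSym n D.natAbs`. Period: `jacobiSym.mod_left`, `jacobiSym.one_left`. `e 4 = (e 2) ^ 2 = 1` as `D` is odd. For odd `n`:
`jacobiSym D n = jacobiSym n D.natAbs`: if `D > 0` then `D = 1` modulo `4`, `jacobiSym.quadratic_reciprocity_one_mod_four`; if `D < 0` then `D.natAbs = 3` modulo
`4`, `jacobiSym D n = jacobiSym (-1) n * jacobiSym D.natAbs n` and `jacobiSym.at_neg_one`, `jacobiSym.quadratic_reciprocity` (or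
`quadratic_reciprocity_three_mod_four` for `n = 3` modulo `4` and `quadratic_reciprocity_one_mod_four'`).
-/

set_option autoImplicit false

namespace Pool.Agent.Lib.MP_1a91b9_ntX.R

open NumberField IsDedekindDomain Pool.Agent.Lib.MP_1a91b9_ntT
open Pool.Agent.Lib.MP_1a91b9_ntT.S4 (omO omO_eq)

private theorem Qa_exists_prime {P : Ideal (𝓞 K)} (hP : G3 P) : ∀ n : ℕ, 0 < n → ((n : ℕ) : 𝓞 K) ∈ P →
    ∃ p : ℕ, p.Prime ∧ ((p : ℕ) : 𝓞 K) ∈ P := by
  intro n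
  induction n using Nat.strong_induction_on with
  | _ n ih =>
    intro hn hnP
    by_cases h1 : n = 1
    · exfalso
      rw [h1, Nat.cast_one] at hnP
      exact hP.pr.ne_top ((Ideal.eq_top_iff_one P).2 hnP)
    · obtain ⟨m, hm⟩ := Nat.minFac_dvd n
      have hp := Nat.minFac_prime h1
      have h2 : ((n : ℕ) : 𝓞 K) = ((n.minFac : ℕ) : 𝓞 K) * ((m : ℕ) : 𝓞 K) := by
        rw [← Nat.cast_mul, ← hm]
      rw [h2] at hnP
      rcases hP.pr.mem_or_mem hnP with h3 | h3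
      · exact ⟨n.minFac, hp, h3⟩
      · have hm0 : 0 < m := by
          rcases Nat.eq_zero_or_pos m with h4 | h4
          · rw [h4, mul_zero] at hm
            omega
          · exact h4
        have hlt : m < n := by
          have h5 := hp.two_le
          calc m < 2 * m := by omega
            _ ≤ n.minFac * m := Nat.mul_le_mul_right m h5
            _ = n := hm.symm
        exact ih m hlt hm0 h3

private theorem Qa_norm {P : Ideal (𝓞 K)} (hP : G3 P) :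
    ∃ p : ℕ, p.Prime ∧ ((p : ℕ) : 𝓞 K) ∈ P ∧ (Ideal.absNorm P = p ∨ Ideal.absNorm P = p ^ 2) := by
  have h1 := hP.one_lt
  obtain ⟨p, hp, hpP⟩ := Qa_exists_prime hP (Ideal.absNorm P) (by omega) (Ideal.absNorm_mem P)
  refine ⟨p, hp, hpP, ?_⟩
  have h2 : Ideal.span {((p : ℕ) : 𝓞 K)} ≤ P := by
    rw [Ideal.span_le]
    intro x hx
    rw [Set.mem_singleton_iff] at hx
    rw [hx]
    exact hpP
  have h3 := Ideal.absNorm_dvd_absNorm_of_le h2
  rw [S4.u4_absNorm_p] at h3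
  obtain ⟨k, hk, hk'⟩ := (Nat.dvd_prime_pow hp).1 h3
  have hk3 : k = 0 ∨ k = 1 ∨ k = 2 := by omega
  rcases hk3 with rfl | rfl | rfl
  · rw [pow_zero] at hk'
    omega
  · left
    rw [hk', pow_one]
  · right
    exact hk'

private theorem Qa_dvd {p : ℕ} (hp : p.Prime) (hp2 : p ≠ 2) (D : ℤ) (hD : ¬ (p : ℤ) ∣ D) {N : ℕ}
    (hN : N = p ∨ N = p ^ 2) : (p : ℤ) ∣ D ^ ((N - 1) / 2) - jacobiSym D N := by
  have : Fact p.Prime := ⟨hp⟩
  have hodd : p % 2 = 1 := by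
    rcases hp.eq_two_or_odd with h | h
    · exact absurd h hp2
    · exact h
  rcases hN with rfl | rfl
  · have h1 := legendreSym.eq_pow N D
    have h2 : (N - 1) / 2 = N / 2 := by omega
    rw [h2, ← jacobiSym.legendreSym.to_jacobiSym]
    rw [← ZMod.intCast_zmod_eq_zero_iff_dvd, Int.cast_sub, Int.cast_pow, h1, sub_self]
  · have hD0 : (D : ZMod p) ≠ 0 := by
      intro h
      exact hD ((ZMod.intCast_zmod_eq_zero_iff_dvd D p).1 h)
    have h1 : (D : ZMod p) ^ (p - 1) = 1 := ZMod.pow_card_sub_one_eq_one hD0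
    have h2 : (p ^ 2 - 1) / 2 = (p - 1) * ((p + 1) / 2) := by
      obtain ⟨k, hk⟩ : ∃ k, p = 2 * k + 1 := ⟨p / 2, by omega⟩
      subst hk
      have e1 : (2 * k + 1) ^ 2 - 1 = 2 * (2 * k * (k + 1)) := by
        have e2 : (2 * k + 1) ^ 2 = 2 * (2 * k * (k + 1)) + 1 := by ring
        rw [e2, Nat.add_sub_cancel]
      have e3 : (2 * k + 1 + 1) / 2 = k + 1 := by omega
      rw [e1, Nat.mul_div_cancel_left _ (by norm_num), Nat.add_sub_cancel, e3]
    have hcop : D.gcd p = 1 := by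
      rw [Int.gcd_comm]
      exact ((Int.isCoprime_iff_gcd_eq_one).1 ((Int.isCoprime_iff_gcd_eq_one).2
        ((Nat.Coprime.symm ((hp.coprime_iff_not_dvd).2 (fun h => hD (Int.natCast_dvd.2 h))).symm))))
    have h3 : jacobiSym D (p ^ 2) = 1 := by
      rw [jacobiSym.pow_right, jacobiSym.sq_one hcop]
    rw [h3, h2, ← ZMod.intCast_zmod_eq_zero_iff_dvd, Int.cast_sub, Int.cast_pow, pow_mul, h1, one_pow,
      Int.cast_one, sub_self]

theorem quad_prime (D : ℤ) {P : Ideal (𝓞 K)} (hP : G3 P) (h : ((6 * D : ℤ) : 𝓞 K) ∉ P) :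
    (D : 𝓞 K) ^ ((Ideal.absNorm P - 1) / 2) - ((jacobiSym D (Ideal.absNorm P) : ℤ) : 𝓞 K) ∈ P := by
  obtain ⟨p, hp, hpP, hN⟩ := Qa_norm hP
  have hp2 : p ≠ 2 := by
    intro h2
    apply h
    have h3 : ((6 * D : ℤ) : 𝓞 K) = ((3 * D : ℤ) : 𝓞 K) * ((p : ℕ) : 𝓞 K) := by
      rw [h2]
      push_cast
      ring
    rw [h3]
    exact P.mul_mem_left _ hpP
  have hD : ¬ (p : ℤ) ∣ D := by
    rintro ⟨c, hc⟩
    apply h
    have h3 : ((6 * D : ℤ) : 𝓞 K) = ((6 * c : ℤ) : 𝓞 K) * ((p : ℕ) : 𝓞 K) := by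
      rw [hc]
      push_cast
      ring
    rw [h3]
    exact P.mul_mem_left _ hpP
  obtain ⟨c, hc⟩ := Qa_dvd hp hp2 D hD hN
  have h3 : (D : 𝓞 K) ^ ((Ideal.absNorm P - 1) / 2) - ((jacobiSym D (Ideal.absNorm P) : ℤ) : 𝓞 K) =
      ((c : ℤ) : 𝓞 K) * ((p : ℕ) : 𝓞 K) := by
    have h4 : ((D ^ ((Ideal.absNorm P - 1) / 2) - jacobiSym D (Ideal.absNorm P) : ℤ) : 𝓞 K) =
        ((((p : ℕ) : ℤ) * c : ℤ) : 𝓞 K) := congrArg (fun z : ℤ => (z : 𝓞 K)) hc
    rw [Int.cast_sub, Int.cast_pow, Int.cast_mul, Int.cast_natCast] at h4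
    rw [h4, mul_comm]
  rw [h3]
  exact P.mul_mem_left _ hpP

theorem exists_quad_A (D : ℤ) (hD : D ≠ 0) : ∃ e : ℕ → ℤ, e 1 = 1 ∧
    (∀ a b : ℕ, 0 < a → 0 < b → e (a * b) = e a * e b) ∧
    (∀ n : ℕ, (4 * D : ℤ) ∣ (n : ℤ) - 1 → e n = 1) ∧
    (∀ n : ℕ, IsCoprime (n : ℤ) D → e n = 1 ∨ e n = -1) ∧
    (∀ P : Ideal (𝓞 K), G3 P → ((6 * D : ℤ) : 𝓞 K) ∉ P →
      (D : 𝓞 K) ^ ((Ideal.absNorm P - 1) / 2) - ((e (Ideal.absNorm P) : ℤ) : 𝓞 K) ∈ P) := by
  refine ⟨fun n => jacobiSym D n, jacobiSym.one_right D, ?_, ?_, ?_, ?_⟩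
  · intro a b ha hb
    exact jacobiSym.mul_right' D ha.ne' hb.ne'
  · intro n hn
    show jacobiSym D n = 1
    have hd : 0 < D.natAbs := Int.natAbs_pos.2 hD
    have h1 : ((4 * D.natAbs : ℕ) : ℤ) ∣ (n : ℤ) - 1 := by
      rw [Nat.cast_mul, Int.natCast_natAbs]
      have h2 : (4 * |D| : ℤ) ∣ 4 * D := mul_dvd_mul_left 4 ((abs_dvd D D).2 dvd_rfl)
      exact h2.trans hn
    have hn0 : 1 ≤ n := by
      rcases Nat.eq_zero_or_pos n with h2 | h2
      · exfalso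
        subst h2
        obtain ⟨c, hc⟩ := h1
        have h3 : (4 : ℤ) ∣ -1 := ⟨(D.natAbs : ℤ) * c, by push_cast at hc ⊢; linarith⟩
        omega
      · exact h2
    have h2 : (4 * D.natAbs) ∣ n - 1 := by
      have h3 : ((n - 1 : ℕ) : ℤ) = (n : ℤ) - 1 := by omega
      rw [← h3] at h1
      exact Int.natCast_dvd_natCast.1 h1
    obtain ⟨c, hc⟩ := h2
    have h4 : n = 4 * D.natAbs * c + 1 := by omega
    have hodd : Odd n := by
      rw [h4]
      exact ⟨2 * D.natAbs * c, by ring⟩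
    have h5 : n % (4 * D.natAbs) = 1 := by
      rw [h4, Nat.mul_add_mod, Nat.mod_eq_of_lt (by omega)]
    rw [jacobiSym.mod_right D hodd, h5, jacobiSym.one_right]
  · intro n hn
    refine jacobiSym.eq_one_or_neg_one ?_
    rw [Int.gcd_comm]
    exact Int.isCoprime_iff_gcd_eq_one.1 hn
  · intro P hP h
    exact quad_prime D hP h

private theorem Qa_recip (m : ℤ) {n : ℕ} (hn : Odd n) :
    jacobiSym (4 * m + 1) n = jacobiSym (n : ℤ) (4 * m + 1).natAbs := by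
  rcases le_or_gt 0 m with hm | hm
  · obtain ⟨k, hk⟩ := Int.eq_ofNat_of_zero_le hm
    have h1 : (4 * m + 1) = ((4 * k + 1 : ℕ) : ℤ) := by
      rw [hk]
      push_cast
      ring
    rw [h1, Int.natAbs_natCast]
    exact jacobiSym.quadratic_reciprocity_one_mod_four (by omega) hn
  · obtain ⟨k, hk⟩ := Int.eq_ofNat_of_zero_le (show 0 ≤ -m - 1 by omega)
    have h1 : (4 * m + 1) = -((4 * k + 3 : ℕ) : ℤ) := by
      push_cast
      linarith
    rw [h1, Int.natAbs_neg, Int.natAbs_natCast, jacobiSym.neg _ hn]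
    have hn2 : n % 4 = 1 ∨ n % 4 = 3 := by
      obtain ⟨j, hj⟩ := hn
      omega
    rcases hn2 with h2 | h2
    · rw [ZMod.χ₄_nat_one_mod_four h2, one_mul]
      exact jacobiSym.quadratic_reciprocity_one_mod_four' ⟨2 * k + 1, by ring⟩ h2
    · rw [ZMod.χ₄_nat_three_mod_four h2, jacobiSym.quadratic_reciprocity_three_mod_four (by omega) h2]
      ring

theorem exists_quad_B (m : ℤ) : ∃ e : ℕ → ℤ, e 1 = 1 ∧
    (∀ a b : ℕ, 0 < a → 0 < b → e (a * b) = e a * e b) ∧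
    (∀ n : ℕ, (4 * m + 1 : ℤ) ∣ (n : ℤ) - 1 → e n = 1) ∧
    (∀ n : ℕ, IsCoprime (n : ℤ) (4 * m + 1) → e n = 1 ∨ e n = -1) ∧
    (∀ P : Ideal (𝓞 K), G3 P → ((6 * (4 * m + 1) : ℤ) : 𝓞 K) ∉ P →
      ((4 * m + 1 : ℤ) : 𝓞 K) ^ ((Ideal.absNorm P - 1) / 2) -
        ((e (Ideal.absNorm P) : ℤ) : 𝓞 K) ∈ P) ∧
    e 4 = 1 := by
  refine ⟨fun n => jacobiSym (n : ℤ) (4 * m + 1).natAbs, ?_, ?_, ?_, ?_, ?_, ?_⟩
  · show jacobiSym ((1 : ℕ) : ℤ) (4 * m + 1).natAbs = 1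
    rw [Nat.cast_one, jacobiSym.one_left]
  · intro a b _ _
    show jacobiSym ((a * b : ℕ) : ℤ) (4 * m + 1).natAbs = _
    rw [Nat.cast_mul, jacobiSym.mul_left]
  · intro n hn
    show jacobiSym (n : ℤ) (4 * m + 1).natAbs = 1
    refine Eq.trans (jacobiSym.mod_left' (a₂ := 1) ?_) (jacobiSym.one_left (4 * m + 1).natAbs)
    rw [Int.natCast_natAbs]
    have h1 : |4 * m + 1| ∣ (n : ℤ) - 1 := (abs_dvd _ _).2 hn
    exact Int.emod_eq_emod_iff_emod_sub_eq_zero.2 (Int.emod_eq_zero_of_dvd h1)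
  · intro n hn
    refine jacobiSym.eq_one_or_neg_one ?_
    have h1 := Int.isCoprime_iff_gcd_eq_one.1 hn
    rw [Int.gcd_eq_natAbs] at h1 ⊢
    rw [Int.natAbs_natCast] at h1 ⊢
    rw [Int.natAbs_natCast]
    exact h1
  · intro P hP h
    obtain ⟨p, hp, hpP, hN⟩ := Qa_norm hP
    have hp2 : p ≠ 2 := by
      intro h2
      apply h
      have h3 : ((6 * (4 * m + 1) : ℤ) : 𝓞 K) = ((3 * (4 * m + 1) : ℤ) : 𝓞 K) * ((p : ℕ) : 𝓞 K) := by
        rw [h2]
        push_cast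
        ring
      rw [h3]
      exact P.mul_mem_left _ hpP
    have hodd : Odd (Ideal.absNorm P) := by
      have h4 : Odd p := hp.odd_of_ne_two hp2
      rcases hN with h5 | h5
      · rw [h5]
        exact h4
      · rw [h5]
        exact h4.pow
    show ((4 * m + 1 : ℤ) : 𝓞 K) ^ ((Ideal.absNorm P - 1) / 2) -
      ((jacobiSym ((Ideal.absNorm P : ℕ) : ℤ) (4 * m + 1).natAbs : ℤ) : 𝓞 K) ∈ P
    rw [← Qa_recip m hodd]
    exact quad_prime (4 * m + 1) hP h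
  · show jacobiSym ((4 : ℕ) : ℤ) (4 * m + 1).natAbs = 1
    have h1 : (((4 : ℕ) : ℤ)) = (2 : ℤ) ^ 2 := by norm_num
    rw [h1]
    refine jacobiSym.sq_one' ?_
    have h2 : Nat.Coprime 2 (4 * m + 1).natAbs := by
      rw [Nat.coprime_two_left]
      rw [Int.natAbs_odd]
      exact ⟨2 * m, by ring⟩
    rw [Int.gcd_eq_natAbs, Int.natAbs_natCast]
    exact h2

end Pool.Agent.Lib.MP_1a91b9_ntX.R
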