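import Pool.Agent.Lib.MP_1a91b9_ntX.R.Fi
import Pool.Agent.Lib.MP_1a91b9_ntX.R.Cu
import Pool.Agent.Lib.MP_1a91b9_ntX.R.Qa

/-!
# R: the Hecke datum of `y² = x³ + D` exists

PROOF (complete). Case B: `D = 16 (4 m + 1)`, `D' := 4 m + 1`. `hd_of` with `f = 9 D'`, `m = D'`, `D1 = D2 = D'`, `C` from
`exists_cubic D'`, `e` from `exists_quad_B m`. `hcub`: `4 D = 4 ^ 3 * D'`, `cs P (4 D) = 3 * cs P 4 + cs P D' = cs P D'` (`cs_mul`, `cs_pow`). `hquad`:
`(4 D) ^ ((N - 1) / 2) = (8 ^ 2) ^ ((N - 1) / 2) * D' ^ ((N - 1) / 2)` and `8 ^ (N - 1) = 1` modulo `P` (`G3.fermat`, `N` odd: `2 ∉ P` and so the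
residue field has odd cardinality; `2 * ((N - 1) / 2) = N - 1`). `hgood`: `9 D' ∈ P` gives `6 D = 96 D' ∈ P` (`3 ∈ P` or `D' ∈ P`). `hbad`: `96 D' ∈ P`, `2 ∉ P`, so `3 ∈ P` or
`D' ∈ P`. `htwo`: `e 4 = 1`; `C (-2) = 0`: `(4)` of `exists_cubic` with `n = -2` (`D'` is odd so `2` and `D'` are coprime: `4 m + 1 - 2 * (2 m) = 1`); `2` and `9 D'` are
coprime.
Case A: not case B. `hd_of` with `f = 36 D`, `m = 4 D`, `D1 = D`, `D2 = 4 D`, `C` from `exists_cubic (4 D)`, `e` from `exists_quad_A D`. `hcub`: `4 D ∉ P` as `6 D ∉ P`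
(`2 ∉ P`, `D ∉ P`). `hquad`: `4 ^ ((N - 1) / 2) = 2 ^ (N - 1) = 1` modulo `P`. `htwo`: does not occur.
-/

set_option autoImplicit false

namespace Pool.Agent.Lib.MP_1a91b9_ntX.R

open NumberField IsDedekindDomain Pool.Agent.Lib.MP_1a91b9_ntT
open Pool.Agent.Lib.MP_1a91b9_ntT.S4 (omO omO_eq)

/-- the norm of a prime which does not contain `2` is odd -/
private theorem Fj_two {P : Ideal (𝓞 K)} (h : G3 P) (h2 : (2 : 𝓞 K) ∉ P) :
    2 * ((Ideal.absNorm P - 1) / 2) = Ideal.absNorm P - 1 := by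
  have h1 : (-1 : 𝓞 K) ∉ P := by
    intro h3
    refine h.pr.ne_top ((Ideal.eq_top_iff_one P).2 ?_)
    have h4 := P.neg_mem h3
    rwa [neg_neg] at h4
  have h3 := h.fermat h1
  rcases Nat.even_or_odd (Ideal.absNorm P - 1) with h4 | h4
  · exact Nat.two_mul_div_two_of_even h4
  · exfalso
    rw [h4.neg_one_pow] at h3
    refine h2 ?_
    have h5 := P.neg_mem h3
    have h6 : -((-1 : 𝓞 K) - 1) = 2 := by ring
    rwa [h6] at h5

/-- an even power modulo a prime ideal -/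
private theorem Fj_quad {P : Ideal (𝓞 K)} (h : G3 P) (h2 : (2 : 𝓞 K) ∉ P) {y a b z : 𝓞 K}
    (hy : y ∉ P) (hb : b = y ^ 2 * a) (ha : a ^ ((Ideal.absNorm P - 1) / 2) - z ∈ P) :
    b ^ ((Ideal.absNorm P - 1) / 2) - z ∈ P := by
  have h1 := h.fermat hy
  have h3 : b ^ ((Ideal.absNorm P - 1) / 2) =
      y ^ (Ideal.absNorm P - 1) * a ^ ((Ideal.absNorm P - 1) / 2) := by
    rw [hb, mul_pow, ← pow_mul, Fj_two h h2]
  have h4 : b ^ ((Ideal.absNorm P - 1) / 2) - z =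
      a ^ ((Ideal.absNorm P - 1) / 2) * (y ^ (Ideal.absNorm P - 1) - 1) +
        (a ^ ((Ideal.absNorm P - 1) / 2) - z) := by
    rw [h3]
    ring
  rw [h4]
  exact P.add_mem (P.mul_mem_left _ h1) ha

/-- The Hecke datum of the curve `y² = x³ + D`. -/
theorem exists_HD (D : ℤ) (hD : D ≠ 0) :
    ∃ (f : 𝓞 K) (ps : Ideal (𝓞 K) → 𝓞 K), HDat D f ps := by
  by_cases hB : ∃ m : ℤ, D = 16 * (4 * m + 1)
  · obtain ⟨m, hm⟩ := hB
    have hD' : (4 * m + 1 : ℤ) ≠ 0 := by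
      intro h0
      exact hD (by rw [hm, h0, mul_zero])
    obtain ⟨C, hCm, hC1, hC3, hC4⟩ := exists_cubic (4 * m + 1) hD'
    obtain ⟨e, he1, hem, hep, hec, heq, he4⟩ := exists_quad_B m
    have h6 : ((6 * D : ℤ) : 𝓞 K) = 96 * ((4 * m + 1 : ℤ) : 𝓞 K) := by
      rw [hm]
      push_cast
      ring
    have h4 : ((4 * D : ℤ) : 𝓞 K) = 8 ^ 2 * ((4 * m + 1 : ℤ) : 𝓞 K) := by
      rw [hm]
      push_cast
      ring
    have hn2 : ∀ P : Ideal (𝓞 K), ((6 * D : ℤ) : 𝓞 K) ∉ P → (2 : 𝓞 K) ∉ P := by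
      intro P hP h2
      refine hP ?_
      have h7 : ((6 * D : ℤ) : 𝓞 K) = (48 * ((4 * m + 1 : ℤ) : 𝓞 K)) * 2 := by
        rw [h6]
        ring
      rw [h7]
      exact P.mul_mem_left _ h2
    have hnD : ∀ P : Ideal (𝓞 K), ((6 * D : ℤ) : 𝓞 K) ∉ P → ((4 * m + 1 : ℤ) : 𝓞 K) ∉ P := by
      intro P hP h2
      refine hP ?_
      rw [h6]
      exact P.mul_mem_left _ h2
    refine ⟨((9 * (4 * m + 1) : ℤ) : 𝓞 K), psD ((9 * (4 * m + 1) : ℤ) : 𝓞 K) C e,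
      hd_of D (9 * (4 * m + 1)) (4 * m + 1) (4 * m + 1) (4 * m + 1) ?_ ?_ (dvd_refl _)
        (Dvd.intro_left _ rfl) (Dvd.intro_left _ rfl) C e hCm hC1 he1 hem hep hec ?_ ?_ ?_ ?_ ?_⟩
    · exact mul_ne_zero (by norm_num) hD'
    · exact ⟨3 * (4 * m + 1), by ring⟩
    · intro β hβ hG hn
      have h2 := hn2 _ hn
      have hDn := hnD _ hn
      have hpr := hG.pr
      have h4n : (4 : 𝓞 K) ∉ Ideal.span {β} := by
        intro h5
        have h7 : (4 : 𝓞 K) = 2 * 2 := by norm_num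
        rw [h7] at h5
        rcases hpr.mem_or_mem h5 with h8 | h8
        · exact h2 h8
        · exact h2 h8
      have h43n : (4 : 𝓞 K) ^ 3 ∉ Ideal.span {β} := fun h5 => h4n (hpr.mem_of_pow_mem 3 h5)
      have h7 : ((4 * D : ℤ) : 𝓞 K) = 4 ^ 3 * ((4 * m + 1 : ℤ) : 𝓞 K) := by
        rw [h4]
        norm_num
      rw [h7, cs_mul hG h43n hDn, cs_pow hG h4n, hC3 β hβ hG hDn]
      have h8 : ((3 : ℕ) : ZMod 3) = 0 := rfl
      rw [h8, zero_mul, zero_add]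
    · intro P hG hn
      have h2 := hn2 _ hn
      have hpr := hG.pr
      have h8n : (8 : 𝓞 K) ∉ P := by
        intro h5
        have h7 : (8 : 𝓞 K) = 2 ^ 3 := by norm_num
        rw [h7] at h5
        exact h2 (hpr.mem_of_pow_mem 3 h5)
      refine Fj_quad hG h2 h8n h4 (heq P hG ?_)
      intro h5
      refine hn ?_
      have h7 : ((6 * D : ℤ) : 𝓞 K) = 16 * ((6 * (4 * m + 1) : ℤ) : 𝓞 K) := by
        rw [h6]
        push_cast
        ring
      rw [h7]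
      exact P.mul_mem_left _ h5
    · intro P hP
      have hpr := P.isPrime
      have h7 : ((9 * (4 * m + 1) : ℤ) : 𝓞 K) = 3 ^ 2 * ((4 * m + 1 : ℤ) : 𝓞 K) := by
        push_cast
        ring
      rw [h7] at hP
      rw [h6]
      rcases hpr.mem_or_mem hP with h8 | h8
      · have h9 := hpr.mem_of_pow_mem 2 h8
        have h10 : (96 : 𝓞 K) * ((4 * m + 1 : ℤ) : 𝓞 K) = (32 * ((4 * m + 1 : ℤ) : 𝓞 K)) * 3 := by
          ring
        rw [h10]
        exact P.asIdeal.mul_mem_left _ h9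
      · exact P.asIdeal.mul_mem_left _ h8
    · intro P hP hne
      have hpr := P.isPrime
      have h2 : (2 : 𝓞 K) ∉ P.asIdeal := fun h2 => hne ⟨h2, m, hm⟩
      have h7 : ((6 * D : ℤ) : 𝓞 K) = 2 ^ 5 * (3 * ((4 * m + 1 : ℤ) : 𝓞 K)) := by
        rw [h6]
        ring
      rw [h7] at hP
      rcases hpr.mem_or_mem hP with h8 | h8
      · exact absurd (hpr.mem_of_pow_mem 5 h8) h2
      · have h9 : ((9 * (4 * m + 1) : ℤ) : 𝓞 K) = 3 * (3 * ((4 * m + 1 : ℤ) : 𝓞 K)) := by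
          push_cast
          ring
        rw [h9]
        exact P.asIdeal.mul_mem_left _ h8
    · intro _
      refine ⟨he4, ?_, ?_⟩
      · have h7 := hC4 (-2) ⟨((2 * m : ℤ) : 𝓞 K), 1, by push_cast; ring⟩
        have h8 : (((-2 : ℤ)) : 𝓞 K) = -2 := by
          push_cast
          rfl
        rw [h8] at h7
        exact h7
      · exact ⟨((-(18 * m + 4) : ℤ) : 𝓞 K), 1, by push_cast; ring⟩
  · have h4D : (4 * D : ℤ) ≠ 0 := mul_ne_zero (by norm_num) hD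
    obtain ⟨C, hCm, hC1, hC3, hC4⟩ := exists_cubic (4 * D) h4D
    obtain ⟨e, he1, hem, hep, hec, heq⟩ := exists_quad_A D hD
    have h6 : ((6 * D : ℤ) : 𝓞 K) = 6 * (D : 𝓞 K) := by push_cast; rfl
    have h4 : ((4 * D : ℤ) : 𝓞 K) = 2 ^ 2 * (D : 𝓞 K) := by
      push_cast
      ring
    have hn2 : ∀ P : Ideal (𝓞 K), ((6 * D : ℤ) : 𝓞 K) ∉ P → (2 : 𝓞 K) ∉ P := by
      intro P hP h2
      refine hP ?_
      have h7 : ((6 * D : ℤ) : 𝓞 K) = (3 * (D : 𝓞 K)) * 2 := by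
        rw [h6]
        ring
      rw [h7]
      exact P.mul_mem_left _ h2
    have hnD : ∀ P : Ideal (𝓞 K), ((6 * D : ℤ) : 𝓞 K) ∉ P → (D : 𝓞 K) ∉ P := by
      intro P hP h2
      refine hP ?_
      rw [h6]
      exact P.mul_mem_left _ h2
    refine ⟨((36 * D : ℤ) : 𝓞 K), psD ((36 * D : ℤ) : 𝓞 K) C e,
      hd_of D (36 * D) (4 * D) D (4 * D) ?_ ?_ ?_ (Dvd.intro_left _ rfl) ?_ C e hCm hC1 he1 hem hep
        hec ?_ ?_ ?_ ?_ ?_⟩
    · exact mul_ne_zero (by norm_num) hD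
    · exact ⟨12 * D, by ring⟩
    · exact ⟨1, by ring⟩
    · exact ⟨9, by ring⟩
    · intro β hβ hG hn
      have hpr := hG.pr
      refine hC3 β hβ hG fun h5 => ?_
      rw [h4] at h5
      rcases hpr.mem_or_mem h5 with h8 | h8
      · exact hn2 _ hn (hpr.mem_of_pow_mem 2 h8)
      · exact hnD _ hn h8
    · intro P hG hn
      exact Fj_quad hG (hn2 _ hn) (hn2 _ hn) h4 (heq P hG hn)
    · intro P hP
      have hpr := P.isPrime
      have h7 : ((36 * D : ℤ) : 𝓞 K) = 2 ^ 2 * (3 ^ 2 * (D : 𝓞 K)) := by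
        push_cast
        ring
      rw [h7] at hP
      rw [h6]
      rcases hpr.mem_or_mem hP with h8 | h8
      · have h9 := hpr.mem_of_pow_mem 2 h8
        have h10 : (6 : 𝓞 K) * (D : 𝓞 K) = (3 * (D : 𝓞 K)) * 2 := by ring
        rw [h10]
        exact P.asIdeal.mul_mem_left _ h9
      · rcases hpr.mem_or_mem h8 with h9 | h9
        · have h10 := hpr.mem_of_pow_mem 2 h9
          have h11 : (6 : 𝓞 K) * (D : 𝓞 K) = (2 * (D : 𝓞 K)) * 3 := by ring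
          rw [h11]
          exact P.asIdeal.mul_mem_left _ h10
        · exact P.asIdeal.mul_mem_left _ h9
    · intro P hP _
      have h7 : ((36 * D : ℤ) : 𝓞 K) = 6 * ((6 * D : ℤ) : 𝓞 K) := by
        push_cast
        ring
      rw [h7]
      exact P.asIdeal.mul_mem_left _ hP
    · intro h
      exact absurd h hB

end Pool.Agent.Lib.MP_1a91b9_ntX.R
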