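import Mathlib

/-!
# R: the Frobenius of a cubic Gauss sum

PROOF (complete). Let `p = ringChar k`, `q = card F`, `ψ := AddChar.FiniteField.primitiveChar k F hchar`
(`PrimitiveAddChar`), `L := CyclotomicField ψ.n F`, `χL := χ.ringHomComp (algebraMap F L)`, `g := gaussSum χL ψ.char`.
`orderOf χL = 3` (`orderOf_eq_prime`). `gaussSum_pow_eq_prod_jacobiSum`: `g ^ 3 = χL (-1) * card k * jacobiSum χL χL`
(the product is over `Ico 1 2`); `χL (-1) = 1`: `χL (-1) ^ 3 = χL ((-1) ^ 3)` is also `1` because `χL ^ 3 = 1`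
(`MulChar.pow_apply'`), so `χL (-1) = χL ((-1) ^ 3) = 1`. Both factors are the images of those for `χ`
(`jacobiSum_ringHomComp`). `g ^ q = gaussSum (χL ^ q) (ψ ^ q)` by iterating `gaussSum_frob` (`q = ℓ ^ f`, `ℓ = ringChar F`, also the
characteristic of `L`; `FiniteField.card`); `χL ^ q = χL` because `q = 3 j + 1`; `ψ ^ q = mulShift ψ q`
(`AddChar.mulShift_apply`, `AddChar.pow_apply`, `nsmul_eq_mul`, `AddChar.map_nsmul_eq_pow`); `q` is not zero in `k`; `gaussSum_mulShift`: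
`χL q * g ^ q = g`. `g ≠ 0` since `g ^ 3 ≠ 0`: `card k` is not zero in `F` and `jacobiSum χ χ ≠ 0`
(`jacobiSum_mul_jacobiSum_inv`; or: `gaussSum_ne_zero_of_nontrivial`, `gaussSum_mul_gaussSum_eq_card` for `g` directly).
So `χL q * g ^ (q - 1) = 1`, `g ^ (q - 1) = (g ^ 3) ^ ((q - 1) / 3)`. The map `F → L` is injective.
-/

set_option autoImplicit false

namespace Pool.Agent.Lib.MP_1a91b9_ntX.R

private theorem Ga_frob {k L : Type*} [Field k] [Fintype k] [Field L] (ℓ : ℕ) [Fact ℓ.Prime]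
    [CharP L ℓ] (χ : MulChar k L) (ψ : AddChar k L) (f : ℕ) :
    gaussSum χ ψ ^ (ℓ ^ f) = gaussSum (χ ^ (ℓ ^ f)) (ψ ^ (ℓ ^ f)) := by
  induction f with
  | zero => rw [pow_zero, pow_one, pow_one, pow_one]
  | succ f ih => rw [pow_succ, pow_mul, ih, gaussSum_frob ℓ, ← pow_mul, ← pow_mul]

private theorem Ga_core {k L : Type*} [Field k] [Fintype k] [Field L] (ℓ : ℕ) [Fact ℓ.Prime]
    [CharP L ℓ] (χ : MulChar k L) (ψ : AddChar k L) (h3 : χ ^ 3 = 1) (f j : ℕ)
    (hq : ℓ ^ f = 3 * j + 1) (hu : ((ℓ ^ f : ℕ) : k) ≠ 0) :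
    χ ((ℓ ^ f : ℕ) : k) * gaussSum χ ψ ^ (ℓ ^ f) = gaussSum χ ψ := by
  have h1 : χ ^ (ℓ ^ f) = χ := by
    rw [hq, pow_succ, pow_mul, h3, one_pow, one_mul]
  have h2 := gaussSum_mulShift χ ψ (Units.mk0 _ hu)
  rw [Ga_frob, h1, AddChar.pow_mulShift]
  exact h2

private theorem Ga_cube {k L : Type*} [Field k] [Fintype k] [Field L] (χ : MulChar k L)
    (ψ : AddChar k L) (h3 : χ ^ 3 = 1) (h1 : χ ≠ 1) (hψ : ψ.IsPrimitive) :
    gaussSum χ ψ ^ 3 = (Fintype.card k : L) * jacobiSum χ χ := by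
  have : Fact (Nat.Prime 3) := ⟨Nat.prime_three⟩
  have ho : orderOf χ = 3 := orderOf_eq_prime h3 h1
  have h := gaussSum_pow_eq_prod_jacobiSum (χ := χ) (ψ := ψ) (by rw [ho]; norm_num) hψ
  rw [ho] at h
  have hI : Finset.Ico 1 (3 - 1) = {1} := by decide
  rw [hI, Finset.prod_singleton, pow_one] at h
  have hm : χ (-1) = 1 := by
    have h4 : χ (-1) ^ 3 = 1 := by
      rw [← MulChar.pow_apply' χ (by norm_num), h3, MulChar.one_apply]
      exact isUnit_one.neg
    have h5 : χ (-1) ^ 3 = χ (-1) := by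
      rw [← map_pow]
      congr 1
      ring
    rw [← h5, h4]
  rw [h, hm, one_mul]

theorem gs_aux {k F : Type*} [Field k] [Fintype k] [Field F] [Fintype F]
    (hchar : ringChar F ≠ ringChar k) (χ : MulChar k F) (h3 : χ ^ 3 = 1) (h1 : χ ≠ 1)
    (hq : 3 ∣ Fintype.card F - 1) :
    ((Fintype.card k : F) * jacobiSum χ χ) ^ ((Fintype.card F - 1) / 3) *
      χ ((Fintype.card F : ℕ) : k) = 1 := by
  obtain ⟨n, hp, hc⟩ := FiniteField.card k (ringChar k)
  obtain ⟨n', hp', hc'⟩ := FiniteField.card F (ringChar F)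
  let ψ := AddChar.FiniteField.primitiveChar k F hchar
  have hchar2 := Algebra.ringChar_eq F (CyclotomicField ψ.n F)
  have := Fact.mk hp'
  have : CharP (CyclotomicField ψ.n F) (ringChar F) := by
    rw [hchar2]
    exact ringChar.charP _
  have hinj : Function.Injective (algebraMap F (CyclotomicField ψ.n F)) := RingHom.injective _
  have h1' : χ.ringHomComp (algebraMap F (CyclotomicField ψ.n F)) ≠ 1 :=
    (MulChar.ringHomComp_ne_one_iff hinj).2 h1
  have h3' : χ.ringHomComp (algebraMap F (CyclotomicField ψ.n F)) ^ 3 = 1 := by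
    rw [MulChar.ringHomComp_pow, h3, MulChar.ringHomComp_one]
  have hcard1 : 1 ≤ Fintype.card F := Fintype.card_pos
  obtain ⟨j, hj⟩ := hq
  have hq' : (ringChar F) ^ (n' : ℕ) = 3 * j + 1 := by
    rw [← hc']
    omega
  have hu : (((ringChar F) ^ (n' : ℕ) : ℕ) : k) ≠ 0 := by
    rw [Nat.cast_pow]
    refine pow_ne_zero _ ?_
    intro h0
    have h2 := (CharP.cast_eq_zero_iff k (ringChar k) (ringChar F)).1 h0
    exact hchar ((Nat.prime_dvd_prime_iff_eq hp hp').1 h2).symm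
  have hA := Ga_core (ringChar F) (χ.ringHomComp (algebraMap F (CyclotomicField ψ.n F))) ψ.char
    h3' (n' : ℕ) j hq' hu
  have hB := Ga_cube (χ.ringHomComp (algebraMap F (CyclotomicField ψ.n F))) ψ.char h3' h1' ψ.prim
  have hcard : ((Fintype.card k : ℕ) : CyclotomicField ψ.n F) ≠ 0 := by
    rw [hc, Nat.cast_pow]
    refine pow_ne_zero _ ?_
    intro h0
    have h2 := (CharP.cast_eq_zero_iff (CyclotomicField ψ.n F) (ringChar F) (ringChar k)).1 h0
    exact hchar ((Nat.prime_dvd_prime_iff_eq hp' hp).1 h2)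
  have hg := gaussSum_ne_zero_of_nontrivial hcard h1' ψ.prim
  apply hinj
  have hj' : (Fintype.card F - 1) / 3 = j := by omega
  rw [hj', map_one, map_mul, map_pow, map_mul, map_natCast, ← MulChar.ringHomComp_apply,
    ← jacobiSum_ringHomComp, ← hB, hc']
  apply mul_right_cancel₀ hg
  rw [one_mul]
  rw [hq', pow_succ, pow_mul] at hA
  rw [hq']
  calc _ = _ := by ring
    _ = _ := hA

end Pool.Agent.Lib.MP_1a91b9_ntX.R
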