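import Pool.Agent.Lib.MP_1a91b9_ntX.R.Jc
import Pool.Agent.Lib.MP_1a91b9_ntX.R.Ga

/-!
# R: the reciprocity between a primary prime and a prime ideal

PROOF (complete). `k := 𝓞 K ⧸ span {β}` and `F := 𝓞 K ⧸ κ` are finite fields with `N P`, `N κ` elements (see the proof of
`S4.u4_three_dvd`). Their characteristics are different: if both are `p` then `N P` is a power of `p` and `p ∈ κ`, against `hn`.
`χ : MulChar k (𝓞 K)` from `S4.u4_exists_char` (`ρ = Ideal.Quotient.mk`, `m = (N P - 1) / 3`). `jac_eq`: `jacobiSum χ χ = -β`.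
`χ' := χ.ringHomComp (Ideal.Quotient.mk κ)`: `χ' ^ 3 = 1` (`MulChar.ringHomComp_pow`), `χ' ≠ 1`: there is `x` with `χ x ≠ 1`, `x ≠ 0`, so `χ x =
ω` or `ω ^ 2`, which is not `1` modulo `κ` (`G3.inj` with `w3 1 = ω`, `w3 2 = ω ^ 2`, `w3 0 = 1`).
`gs_aux`: `(N P * (-β)) ^ ((N κ - 1) / 3) * χ (N κ) = 1` modulo `κ` (`jacobiSum_ringHomComp`). For `a ∉ P`, `χ (mk a) = w3 (cs P a)`: it is
some `w3 c` and `w3 c = a ^ m` modulo `P`, `cs_eq`. `N κ ∉ P`: the characteristics are different. So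
`w3 (cs κ (-(N P * β)) + cs P (N κ)) = 1` modulo `κ` and `G3.inj`, `cs_neg`.
-/

set_option autoImplicit false

namespace Pool.Agent.Lib.MP_1a91b9_ntX.R

open NumberField IsDedekindDomain Pool.Agent.Lib.MP_1a91b9_ntT
open Pool.Agent.Lib.MP_1a91b9_ntT.S4 (omO omO_eq)

private theorem Gb_main {k F : Type} [Field k] [Fintype k] [Field F] [Fintype F]
    {β : 𝓞 K} (hβ : (3 : 𝓞 K) ∣ β - 1) (hP : G3 (Ideal.span {β})) {κ : Ideal (𝓞 K)}
    (hκ : G3 κ) (hn : ((Ideal.absNorm (Ideal.span {β}) : ℕ) : 𝓞 K) ∉ κ)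
    (ρ : 𝓞 K →+* k) (hρ : Function.Surjective ρ) (hker : RingHom.ker ρ = Ideal.span {β})
    (hk : Fintype.card k = Ideal.absNorm (Ideal.span {β}))
    (σ : 𝓞 K →+* F) (hkerσ : RingHom.ker σ = κ) (hF : Fintype.card F = Ideal.absNorm κ) :
    cs κ (((Ideal.absNorm (Ideal.span {β}) : ℕ) : 𝓞 K) * β) +
      cs (Ideal.span {β}) ((Ideal.absNorm κ : ℕ) : 𝓞 K) = 0 := by
  classical
  have h0 : β ≠ 0 := by
    rintro rfl
    exact hP.ne (by simp)
  have hρ0 : ∀ x : 𝓞 K, ρ x = 0 ↔ x ∈ Ideal.span {β} := by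
    intro x
    rw [← hker, RingHom.mem_ker]
  have hσ0 : ∀ x : 𝓞 K, σ x = 0 ↔ x ∈ κ := by
    intro x
    rw [← hkerσ, RingHom.mem_ker]
  have h3k : (3 : k) ≠ 0 := by
    intro h
    apply hP.three
    rw [← hρ0, map_ofNat]
    exact h
  obtain ⟨a, hpa, hka⟩ := FiniteField.card k (ringChar k)
  obtain ⟨b, hpb, hFb⟩ := FiniteField.card F (ringChar F)
  have hchar : ringChar F ≠ ringChar k := by
    intro h
    apply hn
    rw [← hσ0, ← hk, map_natCast, hka, ← h, Nat.cast_pow, CharP.cast_eq_zero,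
      zero_pow (PNat.ne_zero a)]
  have hnk : ((Fintype.card F : ℕ) : k) ≠ 0 := by
    intro h
    rw [hFb, Nat.cast_pow] at h
    have h1 : ((ringChar F : ℕ) : k) = 0 := by
      exact (pow_eq_zero_iff (PNat.ne_zero b)).mp h
    rw [ringChar.spec, Nat.prime_dvd_prime_iff_eq hpa hpb] at h1
    exact hchar h1.symm
  have hnP : ((Ideal.absNorm κ : ℕ) : 𝓞 K) ∉ Ideal.span {β} := by
    rw [← hρ0, map_natCast, ← hF]
    exact hnk
  obtain ⟨m, hm⟩ := hP.dvd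
  have hq : Fintype.card k - 1 = 3 * m := by rw [hk, hm]
  obtain ⟨χ, hχ3, hχ1, hχρ, hχv⟩ := S4.u4_exists_char ρ omO omO_eq h3k m hq
  have hJ := jac_eq ρ hρ hβ h0 hker m hq χ hχ3 hχ1 hχρ hχv
  have hw : ∀ x : k, x ≠ 0 → ∃ c : ZMod 3, χ x = (w3 c : 𝓞 K) := by
    intro x hx
    rcases hχv x hx with h | h | h
    · exact ⟨0, by rw [h, w3_zero]; rfl⟩
    · refine ⟨((1 : ℕ) : ZMod 3), ?_⟩
      rw [h, w3_natCast, pow_one, omU_val]
    · refine ⟨((2 : ℕ) : ZMod 3), ?_⟩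
      rw [h, w3_natCast, Units.val_pow_eq_pow_val, omU_val]
  have hσinj : ∀ c d : ZMod 3, σ (w3 c : 𝓞 K) = σ (w3 d : 𝓞 K) → c = d := by
    intro c d h
    apply hκ.inj
    rw [← hσ0, map_sub, h, sub_self]
  have h3' : (χ.ringHomComp σ) ^ 3 = 1 := by
    rw [MulChar.ringHomComp_pow, hχ3, MulChar.ringHomComp_one]
  have h1' : χ.ringHomComp σ ≠ 1 := by
    intro h
    apply hχ1
    ext x
    obtain ⟨c, hc⟩ := hw x x.ne_zero
    have h2 : (χ.ringHomComp σ) x = 1 := by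
      rw [h, MulChar.one_apply_coe]
    rw [MulChar.ringHomComp_apply, hc] at h2
    have h3 : c = 0 := by
      apply hσinj
      rw [h2, w3_zero, Units.val_one, map_one]
    rw [hc, h3, w3_zero, MulChar.one_apply_coe, Units.val_one]
  have hqF : 3 ∣ Fintype.card F - 1 := by
    rw [hF]
    exact hκ.dvd
  have hgs := gs_aux hchar (χ.ringHomComp σ) h3' h1' hqF
  rw [jacobiSum_ringHomComp, hJ, MulChar.ringHomComp_apply] at hgs
  obtain ⟨c, hc⟩ := hw _ hnk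
  rw [hc] at hgs
  have hcP : cs (Ideal.span {β}) ((Ideal.absNorm κ : ℕ) : 𝓞 K) = c := by
    apply cs_eq hP hnP
    rw [← hρ0, map_sub, ← hc, hχρ, map_pow, map_natCast, ← hF]
    have e : (Ideal.absNorm (Ideal.span {β}) - 1) / 3 = m := by
      rw [hm]
      omega
    rw [e, sub_self]
  have hβκ : β ∉ κ := by
    intro h
    apply hn
    have h1 : ((Ideal.absNorm (Ideal.span {β}) : ℕ) : 𝓞 K) ∈ Ideal.span {β} :=
      Ideal.absNorm_mem _
    obtain ⟨z, hz⟩ := Ideal.mem_span_singleton.mp h1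
    rw [hz]
    exact κ.mul_mem_right z h
  have hy : ((Ideal.absNorm (Ideal.span {β}) : ℕ) : 𝓞 K) * β ∉ κ := by
    intro h
    rcases hκ.pr.mem_or_mem h with h | h
    · exact hn h
    · exact hβκ h
  have hy' : -(((Ideal.absNorm (Ideal.span {β}) : ℕ) : 𝓞 K) * β) ∉ κ := by
    intro h
    exact hy (by simpa using κ.neg_mem h)
  have hspec := cs_spec hκ hy'
  rw [cs_neg hκ hy] at hspec
  rw [← hσ0, map_sub, sub_eq_zero, map_pow, ← mul_neg, map_mul, map_natCast, ← hk, ← hF] at hspec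
  rw [hcP]
  apply hσinj
  rw [w3_add, Units.val_mul, map_mul, w3_zero, Units.val_one, map_one, ← hgs, ← hspec, ← hk]

theorem gs {β : 𝓞 K} (hβ : (3 : 𝓞 K) ∣ β - 1) (hP : G3 (Ideal.span {β})) {κ : Ideal (𝓞 K)}
    (hκ : G3 κ) (hn : ((Ideal.absNorm (Ideal.span {β}) : ℕ) : 𝓞 K) ∉ κ) :
    cs κ (((Ideal.absNorm (Ideal.span {β}) : ℕ) : 𝓞 K) * β) +
      cs (Ideal.span {β}) ((Ideal.absNorm κ : ℕ) : 𝓞 K) = 0 := by
  classical
  have hmaxP : (Ideal.span {β}).IsMaximal := hP.pr.isMaximal hP.ne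
  have hmaxκ : κ.IsMaximal := hκ.pr.isMaximal hκ.ne
  let _ : Field (𝓞 K ⧸ Ideal.span {β}) := Ideal.Quotient.field _
  let _ : Field (𝓞 K ⧸ κ) := Ideal.Quotient.field _
  have hfin : Finite (𝓞 K ⧸ Ideal.span {β}) :=
    (Ideal.span {β}).finiteQuotientOfFreeOfNeBot hP.ne
  have hfin' : Finite (𝓞 K ⧸ κ) := κ.finiteQuotientOfFreeOfNeBot hκ.ne
  have := Fintype.ofFinite (𝓞 K ⧸ Ideal.span {β})
  have := Fintype.ofFinite (𝓞 K ⧸ κ)
  refine Gb_main hβ hP hκ hn (Ideal.Quotient.mk (Ideal.span {β})) Ideal.Quotient.mk_surjective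
    Ideal.mk_ker ?_ (Ideal.Quotient.mk κ) Ideal.mk_ker ?_
  · rw [Ideal.absNorm_apply, Submodule.cardQuot_apply, Nat.card_eq_fintype_card]
  · rw [Ideal.absNorm_apply, Submodule.cardQuot_apply, Nat.card_eq_fintype_card]

end Pool.Agent.Lib.MP_1a91b9_ntX.R
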