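import Pool.Agent.Lib.MP_1a91b9_ntX.R.Cs

/-!
# R: the cubic Jacobi sum

PROOF (complete). Copy from the proof of `S4.exists_psi` (file Pool/Agent/Lib/MP_1a91b9_ntT/S4/Psi.lean), where the same
facts are proved for the residue field of a place of an extension. `J := jacobiSum χ χ`, `J' := jacobiSum (χ ^ 2) (χ ^ 2)`;
`J * J' = #k` (`S4.u4_jac_mul`), `3 ∣ J + 1` (`S4.u4_jac_mod`), a prime containing `J` is `ker ρ` (`S4.u4_jac_prime`), so
`span {J}` is a power of `P = ker ρ = span {β}`; its norm is `#k` (conjugation, `S4.u4_absNorm_p`), and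
`#k = absNorm P` because `ρ` is surjective with kernel `P` (`RingHom.quotientKerEquivOfSurjective`, `Ideal.absNorm_apply`,
`Submodule.cardQuot_apply`). So `span {-J} = span {J} = span {β}` and `-J = β` by `S4.psiK_unique`.
-/

set_option autoImplicit false

namespace Pool.Agent.Lib.MP_1a91b9_ntX.R

open NumberField IsDedekindDomain Pool.Agent.Lib.MP_1a91b9_ntT
open Pool.Agent.Lib.MP_1a91b9_ntT.S4 (omO omO_eq)

theorem jac_eq {k : Type*} [Field k] [Fintype k] (ρ : 𝓞 K →+* k) (hρ : Function.Surjective ρ)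
    {β : 𝓞 K} (hβ : (3 : 𝓞 K) ∣ β - 1) (h0 : β ≠ 0) (hker : RingHom.ker ρ = Ideal.span {β})
    (m : ℕ) (hq : Fintype.card k - 1 = 3 * m) (χ : MulChar k (𝓞 K)) (hχ3 : χ ^ 3 = 1)
    (hχ1 : χ ≠ 1) (hχρ : ∀ x, ρ (χ x) = x ^ m)
    (hχv : ∀ x : k, x ≠ 0 → χ x = 1 ∨ χ x = omO ∨ χ x = omO ^ 2) : jacobiSum χ χ = -β := by
  classical
  have h3k : (3 : k) ≠ 0 := by
    intro h
    have h4 : (3 : 𝓞 K) ∈ RingHom.ker ρ := by rw [RingHom.mem_ker, map_ofNat]; exact h
    rw [hker, Ideal.mem_span_singleton] at h4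
    have h5 : β ∣ 1 := by
      have e : (1 : 𝓞 K) = β - (β - 1) := by ring
      rw [e]
      exact dvd_sub dvd_rfl (h4.trans hβ)
    have h6 : (1 : 𝓞 K) ∈ RingHom.ker ρ := by
      rw [hker, Ideal.mem_span_singleton]
      exact h5
    rw [RingHom.mem_ker, map_one] at h6
    exact one_ne_zero h6
  obtain ⟨p, hpchar⟩ := CharP.exists k
  have hpp : Fact p.Prime := ⟨(CharP.char_is_prime_or_zero k p).resolve_right
    (CharP.char_ne_zero_of_finite k p)⟩
  have hp3 : p ≠ 3 := by
    rintro rfl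
    exact h3k (by exact_mod_cast CharP.cast_eq_zero k 3)
  have hnpos : 0 < Fintype.card k := Fintype.card_pos
  have hn2 : 1 < Fintype.card k := Fintype.one_lt_card
  set J := jacobiSum χ χ with hJ
  set J' := jacobiSum (χ ^ 2) (χ ^ 2) with hJ'
  have hJJ : J * J' = (Fintype.card k : 𝓞 K) := S4.u4_jac_mul p χ hχ3 hχ1
  have hJ0 : J ≠ 0 := by
    intro h
    rw [h, zero_mul] at hJJ
    exact hnpos.ne' (by exact_mod_cast hJJ.symm)
  have hmod : (3 : 𝓞 K) ∣ -J - 1 := by
    have h := S4.u4_jac_mod omO omO_eq χ hχ3 (by rw [hq]; exact Dvd.intro _ rfl)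
    have e : -J - 1 = -(J + 1) := by ring
    rw [e]
    exact (dvd_neg).mpr h
  set P := RingHom.ker ρ with hP
  have hPprime : P.IsPrime := RingHom.ker_isPrime ρ
  have hPb : P ≠ ⊥ := by
    intro h
    rw [h] at hker
    exact h0 (Ideal.span_singleton_eq_bot.1 hker.symm)
  have hJspan : Ideal.span {J} ≠ ⊥ := by rw [Ne, Ideal.span_singleton_eq_bot]; exact hJ0
  have hfm : FiniteMultiplicity P (Ideal.span {J}) :=
    FiniteMultiplicity.of_prime_left (Ideal.prime_of_isPrime hPb hPprime) hJspan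
  obtain ⟨I, hI, hPI⟩ := hfm.exists_eq_pow_mul_and_not_dvd
  have hItop : I = ⊤ := by
    by_contra hne
    obtain ⟨Q, hQm, hIQ⟩ := Ideal.exists_le_maximal I hne
    have hJQ : J ∈ Q := by
      have h1 : Ideal.span {J} ≤ Q := by
        rw [hI]
        exact (Ideal.mul_le_right).trans hIQ
      exact h1 (Ideal.mem_span_singleton_self J)
    have hQp : Q.IsPrime := hQm.isPrime
    have := S4.u4_jac_prime p hp3 omO omO_eq ρ χ hχ3 hχ1 hχv m hq hχρ Q hJQ
    apply hPI
    rw [Ideal.dvd_iff_le, hP, ← this]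
    exact hIQ
  rw [hItop, Ideal.mul_top] at hI
  -- comparison of norms
  have hnJ : Ideal.absNorm (Ideal.span {J}) = Fintype.card k := by
    obtain ⟨σ, hσ⟩ := S4.u4_conj omO omO_eq
    have hσJ : σ J = J' := by
      have h := S4.u4_jac_conj omO omO_eq χ hχv σ.toRingHom (RingHom.id _) (by simpa using hσ)
      simpa using h
    have e1 : Ideal.absNorm (Ideal.span {J'}) = Ideal.absNorm (Ideal.span {J}) := by
      rw [Ideal.absNorm_span_singleton, Ideal.absNorm_span_singleton, ← hσJ]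
      congr 1
      let σ' : 𝓞 K ≃ₐ[ℤ] 𝓞 K := AlgEquiv.ofRingEquiv (f := σ) (fun n => by simp)
      exact Algebra.norm_eq_of_algEquiv σ' J
    have e2 : Ideal.absNorm (Ideal.span {J}) * Ideal.absNorm (Ideal.span {J'}) =
        Fintype.card k ^ 2 := by
      rw [← map_mul, Ideal.span_singleton_mul_span_singleton, hJJ]
      exact S4.u4_absNorm_p (Fintype.card k)
    rw [e1, ← pow_two] at e2
    exact (Nat.pow_left_injective (n := 2) (by norm_num)) e2
  have hnP : Ideal.absNorm P = Fintype.card k := by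
    rw [Ideal.absNorm_apply, Submodule.cardQuot_apply, ← Nat.card_eq_fintype_card]
    exact Nat.card_congr (RingHom.quotientKerEquivOfSurjective hρ).toEquiv
  have h1 : Ideal.absNorm P ^ multiplicity P (Ideal.span {J}) = Ideal.absNorm P ^ 1 := by
    rw [pow_one]
    conv_rhs => rw [hnP, ← hnJ, hI]
    rw [map_pow]
  have hP2 : 2 ≤ Ideal.absNorm P := by
    rw [hnP]
    exact hn2
  have h2 : multiplicity P (Ideal.span {J}) = 1 := Nat.pow_right_injective hP2 h1
  rw [h2, pow_one] at hI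
  have h3 : Ideal.span {-J} = Ideal.span {β} := by
    rw [Ideal.span_singleton_neg, hI, hker]
  have h4 : -J = β := S4.psiK_unique (-J) β hmod hβ h3
  rw [← h4, neg_neg]

end Pool.Agent.Lib.MP_1a91b9_ntX.R
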