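import Pool.Agent.Lib.MP_1a91b9_ntX.R.Xb
import Pool.Agent.Lib.MP_1a91b9_ntX.R.Gb

/-!
# R: the rational reciprocity law

PROOF (complete). `m` and `β` are coprime: `span {β}` is a maximal ideal not containing `m`. The norm `N = N (β) = β * cjr β`
(`mul_cjr`) is coprime to `m` (conjugate the relation between `m` and `β`; `IsCoprime.map`, `IsCoprime.mul_left`). For every
prime factor `κ` of `m` (`X_factor`, `X_not_mem`) `gs` gives `cs κ N + cs κ β + cs P (N κ) = 0` (`cs_mul`). Sum over the factors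
(`Multiset.sum_map_add`): `X m N + X m β + 2 * cs P m = 0` (`X_norm`), `X m N = 0` (`X_int`, `N` is a natural number), and `2 = -1` in
`ZMod 3`.
-/

set_option autoImplicit false

namespace Pool.Agent.Lib.MP_1a91b9_ntX.R

open NumberField IsDedekindDomain Pool.Agent.Lib.MP_1a91b9_ntT
open Pool.Agent.Lib.MP_1a91b9_ntT.S4 (omO omO_eq)

theorem coprime_of_not_mem {β : 𝓞 K} (hP : G3 (Ideal.span {β})) {x : 𝓞 K}
    (hx : x ∉ Ideal.span {β}) : IsCoprime β x := by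
  have hmax : (Ideal.span {β}).IsMaximal := hP.pr.isMaximal hP.ne
  obtain ⟨y, i, hi, h⟩ := hmax.exists_inv hx
  obtain ⟨a, rfl⟩ := Ideal.mem_span_singleton'.1 hi
  exact ⟨a, y, by rw [add_comm]; exact h⟩

private theorem Rt_zmod : ∀ c x : ZMod 3, 0 + x + 2 * c = 0 → c = x := by decide

theorem cs_rat {β : 𝓞 K} (hβ : (3 : 𝓞 K) ∣ β - 1) (hP : G3 (Ideal.span {β})) (m : ℤ)
    (h3 : ¬ (3 : ℤ) ∣ m) (hm : (m : 𝓞 K) ∉ Ideal.span {β}) :
    cs (Ideal.span {β}) (m : 𝓞 K) = X m β := by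
  have hcop : IsCoprime β (m : 𝓞 K) := coprime_of_not_mem hP hm
  have hcop2 : IsCoprime (cjr β) (m : 𝓞 K) := by
    have h1 := hcop.map (cjr : 𝓞 K →+* 𝓞 K)
    rw [map_intCast] at h1
    exact h1
  have hN : IsCoprime ((Ideal.absNorm (Ideal.span {β}) : ℕ) : 𝓞 K) (m : 𝓞 K) := by
    rw [← mul_cjr]
    exact hcop.mul_left hcop2
  have hterm : ∀ κ ∈ UniqueFactorizationMonoid.normalizedFactors (Ideal.span {(m : 𝓞 K)}),
      cs κ ((Ideal.absNorm (Ideal.span {β}) : ℕ) : 𝓞 K) + cs κ β +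
        cs (Ideal.span {β}) ((Ideal.absNorm κ : ℕ) : 𝓞 K) = 0 := by
    intro κ hκ
    have h1 := (X_factor h3 hκ).1
    have h2 := gs hβ hP h1 (X_not_mem hN hκ)
    rwa [cs_mul h1 (X_not_mem hN hκ) (X_not_mem hcop hκ)] at h2
  have hsum : X m ((Ideal.absNorm (Ideal.span {β}) : ℕ) : 𝓞 K) + X m β +
      ((UniqueFactorizationMonoid.normalizedFactors (Ideal.span {(m : 𝓞 K)})).map
        (fun κ => cs (Ideal.span {β}) ((Ideal.absNorm κ : ℕ) : 𝓞 K))).sum = 0 := by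
    unfold X
    rw [← Multiset.sum_map_add, ← Multiset.sum_map_add, Multiset.map_congr rfl hterm]
    exact Multiset.sum_map_zero
  have hXN : X m ((Ideal.absNorm (Ideal.span {β}) : ℕ) : 𝓞 K) = 0 := by
    have h1 := X_int h3 ((Ideal.absNorm (Ideal.span {β}) : ℕ) : ℤ) (by rw [Int.cast_natCast]; exact hN)
    rwa [Int.cast_natCast] at h1
  rw [X_norm h3 hP hm, hXN] at hsum
  exact Rt_zmod _ _ hsum

end Pool.Agent.Lib.MP_1a91b9_ntX.R
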