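import Pool.Agent.Lib.MP_1a91b9_ntX.R.Rt

/-!
# R: the complementary law: the symbol of `3`

`Y α = n` modulo `3` for `α = a + 3 n ω`.

PROOF (complete). `Y_eq`: `coord_unique`. `Y_mul`: `α = a + 3 n ω`, `α' = a' + 3 n' ω` with `a = a' = 1` modulo `3` (`coord` and
`coord_unique` applied to `α - 1 = 3 γ`); the product is `(a a' - 9 n n') + 3 (a n' + a' n - 3 n n') ω`. `Y_nine`: `α = 1 + 9 γ`. `Y_int`: `n = 0`.
`cs_three`: let `β = a + b ω`, `b = 3 n`, `3 ∣ a - 1`, `N := N(β) = a ^ 2 - a b + b ^ 2` (`norm_form`), `P = span {β}`.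
Case 1: `cI P = P` (`cI_span`). Then `cs P 3 = 0` by `cs_int`; `cjr β` and `β` generate the same ideal and are both `1` modulo `3`, so
`cjr β = β` (`S4.psiK_unique`) and `b = 0` (`coord_unique`, `cjr β = (a - b) - b ω`), so `Y β = 0`.
Case 2: `cI P ≠ P`: two different maximal ideals. `b ∉ P`: otherwise `cjr b = b ∈ cI P` too, and `a = β - b ω ∈ P`, `a = cjr a ∈ cI P`; so
`cjr β = (a - b) - b ω ∈ P`, `span {cjr β} = cI P ≤ P`, hence `cI P = P` (maximal). `a ∉ P`: otherwise `b ω ∈ P`, `b ∈ P` (`ω` is a unit).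
`M := a + b ∉ P`: otherwise `β - M = b (ω - 1) ∈ P`, so `b ∈ P` or `ω - 1 ∈ P`, and `(ω - 1) ^ 2 = -3 ω`, `3 ∈ P`.
`3` does not divide `a`, `M`. `cs_rat`: `cs P a = X a β = X a (b ω)` (`X_congr`) `= X a b + X a ω = (a ^ 2 - 1) / 3` (`X_int`, `X_om`; the
coprimality of `b ω`, `b`, `ω` with `a` from that of `β`). `cs P M = X M β = X M (b (ω - 1)) = X M b + X M (ω - 1) = X M (ω - 1)`, and
`2 * X M (ω - 1) = X M (-3 ω) = X M (-3) + X M ω = (M ^ 2 - 1) / 3`, so `cs P M = -(M ^ 2 - 1) / 3` in `ZMod 3`. `M - a (1 - ω ^ 2)` is in `P` (it is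
`-ω ^ 2 * ...`: `b = -a ω ^ 2` modulo `β` as `b = ω ^ 2 * (b ω)`, `ω ^ 3 = 1`), so `cs P (1 - ω ^ 2) = cs P M - cs P a`. Finally `3 = -ω (1 - ω ^ 2) ^ 2` and
`cs P 3 = cs P ω + 2 * cs P (1 - ω ^ 2) = (N - 1) / 3 + (M ^ 2 - 1) / 3 + (a ^ 2 - 1) / 3` in `ZMod 3` (`2 * (-1) = 1`). With `a = 1 + 3 s`, `b = 3 n` the integers are
polynomials in `s, n`, and the sum is `n` modulo `3`.
-/

set_option autoImplicit false

namespace Pool.Agent.Lib.MP_1a91b9_ntX.R

open NumberField IsDedekindDomain Pool.Agent.Lib.MP_1a91b9_ntT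
open Pool.Agent.Lib.MP_1a91b9_ntT.S4 (omO omO_eq)

open Classical in
/-- the number `n` modulo `3` for `α = a + 3 n ω` -/
noncomputable def Y (α : 𝓞 K) : ZMod 3 :=
  if h : ∃ n a : ℤ, α = (a : 𝓞 K) + ((3 * n : ℤ) : 𝓞 K) * omO then ((h.choose : ℤ) : ZMod 3) else 0

theorem Y_eq (a n : ℤ) : Y ((a : 𝓞 K) + ((3 * n : ℤ) : 𝓞 K) * omO) = (n : ZMod 3) := by
  have h : ∃ n' a' : ℤ, (a : 𝓞 K) + ((3 * n : ℤ) : 𝓞 K) * omO =
      (a' : 𝓞 K) + ((3 * n' : ℤ) : 𝓞 K) * omO := ⟨n, a, rfl⟩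
  rw [Y, dif_pos h]
  obtain ⟨a', ha'⟩ := h.choose_spec
  have h1 := (coord_unique ha').2
  have h2 : h.choose = n := by omega
  rw [h2]

private theorem Th_repr {α : 𝓞 K} (ha : (3 : 𝓞 K) ∣ α - 1) :
    ∃ s n : ℤ, α = ((1 + 3 * s : ℤ) : 𝓞 K) + ((3 * n : ℤ) : 𝓞 K) * omO := by
  obtain ⟨c, hc⟩ := ha
  obtain ⟨p, q, rfl⟩ := coord c
  refine ⟨p, q, ?_⟩
  push_cast
  linear_combination hc

private theorem Th_om2 : omO * omO = -1 - omO := by
  linear_combination omO_eq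

theorem Y_mul {α β : 𝓞 K} (ha : (3 : 𝓞 K) ∣ α - 1) (hb : (3 : 𝓞 K) ∣ β - 1) :
    Y (α * β) = Y α + Y β := by
  obtain ⟨s, n, rfl⟩ := Th_repr ha
  obtain ⟨t, k, rfl⟩ := Th_repr hb
  have e : (((1 + 3 * s : ℤ) : 𝓞 K) + ((3 * n : ℤ) : 𝓞 K) * omO) *
      (((1 + 3 * t : ℤ) : 𝓞 K) + ((3 * k : ℤ) : 𝓞 K) * omO) =
      (((1 + 3 * s) * (1 + 3 * t) - 9 * n * k : ℤ) : 𝓞 K) +
        ((3 * (n + k + 3 * (s * k + t * n - n * k)) : ℤ) : 𝓞 K) * omO := by
    push_cast
    linear_combination (9 * (n : 𝓞 K) * k) * Th_om2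
  rw [e, Y_eq, Y_eq, Y_eq]
  push_cast
  have h3 : (3 : ZMod 3) = 0 := by decide
  rw [h3]
  ring

theorem Y_nine {α : 𝓞 K} (ha : (9 : 𝓞 K) ∣ α - 1) : Y α = 0 := by
  obtain ⟨c, hc⟩ := ha
  obtain ⟨p, q, rfl⟩ := coord c
  have e : α = ((1 + 9 * p : ℤ) : 𝓞 K) + ((3 * (3 * q) : ℤ) : 𝓞 K) * omO := by
    push_cast
    linear_combination hc
  rw [e, Y_eq]
  push_cast
  have h3 : (3 : ZMod 3) = 0 := by decide
  rw [h3, zero_mul]

theorem Y_int (n : ℤ) : Y (n : 𝓞 K) = 0 := by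
  have h := Y_eq n 0
  rw [mul_zero, Int.cast_zero, zero_mul, add_zero, Int.cast_zero] at h
  exact h

private theorem Th_isUnit_om : IsUnit omO := omU.isUnit

private theorem Th_unit_not_mem {P : Ideal (𝓞 K)} (hP : G3 P) {u : 𝓞 K} (hu : IsUnit u) : u ∉ P := by
  intro h
  exact hP.pr.ne_top (Ideal.eq_top_of_isUnit_mem _ h hu)

private theorem Th_div3 (a s : ℤ) (h : a = 1 + 3 * s) : (a ^ 2 - 1) / 3 = 2 * s + 3 * s ^ 2 := by
  have e : a ^ 2 - 1 = 3 * (2 * s + 3 * s ^ 2) := by rw [h]; ring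
  rw [e, Int.mul_ediv_cancel_left _ (by norm_num)]

theorem cs_three {β : 𝓞 K} (hβ : (3 : 𝓞 K) ∣ β - 1) (hP : G3 (Ideal.span {β})) :
    cs (Ideal.span {β}) 3 = Y β := by
  have hβ' := hβ
  obtain ⟨s, n, hb⟩ := Th_repr hβ'
  set P : Ideal (𝓞 K) := Ideal.span {β} with hPd
  set a : ℤ := 1 + 3 * s with ha
  set b : ℤ := 3 * n with hbd
  have hY : Y β = (n : ZMod 3) := by rw [hb, Y_eq]
  have hmax : P.IsMaximal := hP.pr.isMaximal hP.ne
  have hmax' : (cI P).IsMaximal := hP.cI.pr.isMaximal hP.cI.ne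
  have hcjβ : cjr β = (a : 𝓞 K) - (b : 𝓞 K) - (b : 𝓞 K) * omO := by
    rw [hb, map_add, map_mul, map_intCast, map_intCast, cjr_om]
    ring
  have hβP : β ∈ P := Ideal.mem_span_singleton_self β
  have hom := Th_unit_not_mem hP Th_isUnit_om
  rw [hY]
  by_cases hc : cI P = P
  · -- the inert case
    have h3 : cs P ((3 : ℤ) : 𝓞 K) = 0 := by
      refine cs_int hP hc 3 ?_
      rw [Int.cast_ofNat]
      exact hP.three
    rw [Int.cast_ofNat] at h3
    rw [h3]
    have h4 : cjr β = β := by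
      refine S4.psiK_unique _ _ ?_ hβ ?_
      · obtain ⟨c, hc⟩ := hβ
        refine ⟨cjr c, ?_⟩
        have h5 := congrArg cjr hc
        rw [map_sub, map_one, map_mul, map_ofNat] at h5
        exact h5
      · rw [← cI_span]
        exact hc
    have h5 : ((a : ℤ) : 𝓞 K) + (b : 𝓞 K) * omO = ((a - b : ℤ) : 𝓞 K) + ((-b : ℤ) : 𝓞 K) * omO := by
      rw [← hb]
      rw [hcjβ] at h4
      push_cast
      linear_combination -h4
    have h6 := (coord_unique h5).2
    have h7 : n = 0 := by omega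
    rw [h7, Int.cast_zero]
  · -- the split case
    have hbP : (b : 𝓞 K) ∉ P := by
      intro h
      have h1 : cjr β ∈ P := by
        have e : cjr β = β - (b : 𝓞 K) * (1 + 2 * omO) := by
          rw [hcjβ, hb]
          ring
        rw [e]
        exact P.sub_mem hβP (P.mul_mem_right _ h)
      apply hc
      refine hmax'.eq_of_le hP.pr.ne_top ?_
      rw [hPd, cI_span, Ideal.span_singleton_le_iff_mem]
      exact h1
    have haP : (a : 𝓞 K) ∉ P := by
      intro h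
      have h1 : (b : 𝓞 K) * omO ∈ P := by
        have e : (b : 𝓞 K) * omO = β - a := by rw [hb]; ring
        rw [e]
        exact P.sub_mem hβP h
      rcases hP.pr.mem_or_mem h1 with h2 | h2
      · exact hbP h2
      · exact hom h2
    have hom1 : omO - 1 ∉ P := by
      intro h
      have h1 : (3 : 𝓞 K) * omO ∈ P := by
        have e : (3 : 𝓞 K) * omO = -((omO - 1) * (omO - 1)) := by
          linear_combination omO_eq
        rw [e]
        exact P.neg_mem (P.mul_mem_right _ h)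
      rcases hP.pr.mem_or_mem h1 with h2 | h2
      · exact hP.three h2
      · exact hom h2
    have hMP : ((a + b : ℤ) : 𝓞 K) ∉ P := by
      intro h
      have h1 : (b : 𝓞 K) * (omO - 1) ∈ P := by
        have e : (b : 𝓞 K) * (omO - 1) = β - ((a + b : ℤ) : 𝓞 K) := by
          rw [hb]; push_cast; ring
        rw [e]
        exact P.sub_mem hβP h
      rcases hP.pr.mem_or_mem h1 with h2 | h2
      · exact hbP h2
      · exact hom1 h2
    have ha3 : ¬ (3 : ℤ) ∣ a := by omega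
    have hM3 : ¬ (3 : ℤ) ∣ a + b := by omega
    -- the symbol of `a`
    have hcopa : IsCoprime β (a : 𝓞 K) := coprime_of_not_mem hP haP
    have hcopM : IsCoprime β ((a + b : ℤ) : 𝓞 K) := coprime_of_not_mem hP hMP
    have hcopba : IsCoprime ((b : 𝓞 K) * omO) (a : 𝓞 K) := by
      have e : (b : 𝓞 K) * omO = β + (a : 𝓞 K) * (-1) := by rw [hb]; ring
      rw [e]
      exact IsCoprime.add_mul_left_left hcopa _
    have hcopbM : IsCoprime ((b : 𝓞 K) * (omO - 1)) ((a + b : ℤ) : 𝓞 K) := by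
      have e : (b : 𝓞 K) * (omO - 1) = β + ((a + b : ℤ) : 𝓞 K) * (-1) := by
        rw [hb]; push_cast; ring
      rw [e]
      exact IsCoprime.add_mul_left_left hcopM _
    have hA : cs P (a : 𝓞 K) = (((a ^ 2 - 1) / 3 : ℤ) : ZMod 3) := by
      rw [cs_rat hβ hP a ha3 haP]
      rw [X_congr ha3 (β := (b : 𝓞 K) * omO) hcopa ⟨1, by rw [hb]; ring⟩]
      rw [X_mul ha3 (IsCoprime.of_mul_left_left hcopba) (IsCoprime.of_mul_left_right hcopba),
        X_int ha3 b (IsCoprime.of_mul_left_left hcopba), X_om ha3, zero_add]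
    have hM : 2 * cs P ((a + b : ℤ) : 𝓞 K) = ((((a + b) ^ 2 - 1) / 3 : ℤ) : ZMod 3) := by
      rw [cs_rat hβ hP (a + b) hM3 hMP]
      rw [X_congr hM3 (β := (b : 𝓞 K) * (omO - 1)) hcopM ⟨1, by rw [hb]; push_cast; ring⟩]
      have hc1 := IsCoprime.of_mul_left_right hcopbM
      rw [X_mul hM3 (IsCoprime.of_mul_left_left hcopbM) hc1,
        X_int hM3 b (IsCoprime.of_mul_left_left hcopbM), zero_add]
      have h2 := X_pow hM3 hc1 2
      have e : (omO - 1) ^ 2 = ((-3 : ℤ) : 𝓞 K) * omO := by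
        push_cast
        linear_combination Th_om2
      have hc3 : IsCoprime (((-3 : ℤ) : 𝓞 K) * omO) ((a + b : ℤ) : 𝓞 K) := by
        rw [← e]
        exact hc1.pow_left
      rw [e, X_mul hM3 (IsCoprime.of_mul_left_left hc3) (IsCoprime.of_mul_left_right hc3),
        X_int hM3 (-3) (IsCoprime.of_mul_left_left hc3), X_om hM3, zero_add] at h2
      rw [h2]
      norm_num
    -- `1 - ω ^ 2`
    have h1w : (1 - omO ^ 2) ∉ P := by
      intro h
      have h1 : (3 : 𝓞 K) ∈ P := by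
        have e : (3 : 𝓞 K) = (1 - omO ^ 2) * (1 - omO) := by
          have h4 : omO ^ 3 = 1 := by linear_combination (omO - 1) * omO_eq
          linear_combination omO_eq - h4
        rw [e]
        exact P.mul_mem_right _ h
      exact hP.three h1
    have hcong : cs P ((a + b : ℤ) : 𝓞 K) = cs P ((a : 𝓞 K) * (1 - omO ^ 2)) := by
      refine cs_congr hP hMP ?_
      have e : ((a + b : ℤ) : 𝓞 K) - (a : 𝓞 K) * (1 - omO ^ 2) = omO ^ 2 * β := by
        have h4 : omO ^ 3 = 1 := by linear_combination (omO - 1) * omO_eq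
        rw [hb]
        push_cast
        linear_combination (-(b : 𝓞 K)) * h4
      rw [e]
      exact P.mul_mem_left _ hβP
    rw [cs_mul hP haP h1w] at hcong
    have hthree : cs P 3 = cs P omO + 2 * cs P (1 - omO ^ 2) := by
      have e : (3 : 𝓞 K) = -(omO * (1 - omO ^ 2) ^ 2) := by
        have h4 : omO ^ 3 = 1 := by linear_combination (omO - 1) * omO_eq
        linear_combination omO_eq + (omO ^ 2 - 2) * h4
      have hsq : (1 - omO ^ 2) ^ 2 ∉ P := fun h => h1w (hP.pr.mem_of_pow_mem 2 h)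
      have hpr : omO * (1 - omO ^ 2) ^ 2 ∉ P := by
        intro h
        rcases hP.pr.mem_or_mem h with h2 | h2
        · exact hom h2
        · exact hsq h2
      rw [e, cs_neg hP hpr, cs_mul hP hom hsq, cs_pow hP h1w]
      norm_num
    -- the norm
    have hN : ((Ideal.absNorm P : ℕ) : ℤ) = a ^ 2 - a * b + b ^ 2 := by
      have h := norm_form a b
      rw [← hb] at h
      exact h
    have hNom : cs P omO = (((a ^ 2 - a * b + b ^ 2 - 1) / 3 : ℤ) : ZMod 3) := by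
      rw [cs_om hP, ← hN]
      have h1 := hP.one_lt
      have e : (((Ideal.absNorm P - 1) / 3 : ℕ) : ℤ) = (((Ideal.absNorm P : ℕ) : ℤ) - 1) / 3 := by
        push_cast [Nat.cast_sub h1.le]
        rfl
      rw [← e, Int.cast_natCast]
    -- conclusion
    have e1 : (a ^ 2 - 1) / 3 = 2 * s + 3 * s ^ 2 := Th_div3 a s ha
    have e2 : ((a + b) ^ 2 - 1) / 3 = 2 * (s + n) + 3 * (s + n) ^ 2 :=
      Th_div3 (a + b) (s + n) (by rw [ha, hbd]; ring)
    have e3 : (a ^ 2 - a * b + b ^ 2 - 1) / 3 = 2 * s - n + 3 * (s ^ 2 - s * n + n ^ 2) := by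
      have e : a ^ 2 - a * b + b ^ 2 - 1 = 3 * (2 * s - n + 3 * (s ^ 2 - s * n + n ^ 2)) := by
        rw [ha, hbd]; ring
      rw [e, Int.mul_ediv_cancel_left _ (by norm_num)]
    rw [e1] at hA
    rw [e2] at hM
    rw [e3] at hNom
    rw [hthree, hNom]
    have h3 : (3 : ZMod 3) = 0 := by decide
    rw [hcong] at hM
    push_cast at hA hM ⊢
    rw [h3] at hA hM ⊢
    linear_combination hM - 2 * hA

end Pool.Agent.Lib.MP_1a91b9_ntX.R
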