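import Pool.Agent.Lib.MP_1a91b9_ntX.R.Cj

/-!
# R: the cubic residue symbol with a composite denominator

`X m α` is the sum of `cs κ α` over the prime factors `κ` of the ideal `(m)`, with multiplicities.

PROOF (complete). `X_factor`: `κ ∈ normalizedFactors (span {m})` is prime and divides `(m)` (`dvd_of_mem_normalizedFactors`,
`Ideal.dvd_iff_le`), and `1` is a combination of `m` and `3`. `X_not_mem` is the same. `X_mul`: `Multiset.sum_map_add` after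
`Multiset.map_congr` with `cs_mul`. `X_congr`: `cs_congr`. `X_one`, `X_neg`, `X_pow`: termwise or from `X_mul`.
-/

set_option autoImplicit false

namespace Pool.Agent.Lib.MP_1a91b9_ntX.R

open NumberField IsDedekindDomain Pool.Agent.Lib.MP_1a91b9_ntT
open Pool.Agent.Lib.MP_1a91b9_ntT.S4 (omO omO_eq)

/-- the sum of the `cs κ α` over the prime factors `κ` of `m` -/
noncomputable def X (m α : 𝓞 K) : ZMod 3 :=
  ((UniqueFactorizationMonoid.normalizedFactors (Ideal.span {m})).map (fun κ => cs κ α)).sum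

/-- `3` does not divide the integer `m` -/
theorem X_coprime_three {m : ℤ} (h3 : ¬ (3 : ℤ) ∣ m) : IsCoprime (m : 𝓞 K) 3 := by
  have h1 : IsCoprime m 3 := (Int.prime_three.coprime_iff_not_dvd.2 h3).symm
  have h2 := h1.map (Int.castRingHom (𝓞 K))
  rw [eq_intCast, eq_intCast, Int.cast_ofNat] at h2
  exact h2

private theorem Xa_mem {m α : 𝓞 K} (ha : IsCoprime α m) {κ : Ideal (𝓞 K)}
    (hκ : κ ∈ UniqueFactorizationMonoid.normalizedFactors (Ideal.span {m})) :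
    κ.IsPrime ∧ κ ≠ ⊥ ∧ m ∈ κ ∧ α ∉ κ := by
  have hp := UniqueFactorizationMonoid.prime_of_normalized_factor κ hκ
  have hpr : κ.IsPrime := Ideal.isPrime_of_prime hp
  have hd := UniqueFactorizationMonoid.dvd_of_mem_normalizedFactors hκ
  rw [Ideal.dvd_iff_le, Ideal.span_singleton_le_iff_mem] at hd
  refine ⟨hpr, hp.ne_zero, hd, fun h => ?_⟩
  obtain ⟨a, b, hab⟩ := ha
  apply hpr.ne_top
  rw [Ideal.eq_top_iff_one, ← hab]
  exact κ.add_mem (κ.mul_mem_left a h) (κ.mul_mem_left b hd)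

private theorem Xa_sum {m : 𝓞 K} {f g : Ideal (𝓞 K) → ZMod 3}
    (h : ∀ κ ∈ UniqueFactorizationMonoid.normalizedFactors (Ideal.span {m}), f κ = g κ) :
    ((UniqueFactorizationMonoid.normalizedFactors (Ideal.span {m})).map f).sum =
      ((UniqueFactorizationMonoid.normalizedFactors (Ideal.span {m})).map g).sum := by
  rw [Multiset.map_congr rfl h]

theorem X_factor {m : ℤ} (h3 : ¬ (3 : ℤ) ∣ m) {κ : Ideal (𝓞 K)}
    (hκ : κ ∈ UniqueFactorizationMonoid.normalizedFactors (Ideal.span {(m : 𝓞 K)})) :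
    G3 κ ∧ (m : 𝓞 K) ∈ κ := by
  obtain ⟨h1, h2, h4, h5⟩ := Xa_mem (X_coprime_three h3).symm hκ
  exact ⟨⟨h1, h2, h5⟩, h4⟩

theorem X_not_mem {m : ℤ} {α : 𝓞 K} (ha : IsCoprime α (m : 𝓞 K)) {κ : Ideal (𝓞 K)}
    (hκ : κ ∈ UniqueFactorizationMonoid.normalizedFactors (Ideal.span {(m : 𝓞 K)})) : α ∉ κ :=
  (Xa_mem ha hκ).2.2.2

theorem X_mul {m : ℤ} (h3 : ¬ (3 : ℤ) ∣ m) {α β : 𝓞 K} (ha : IsCoprime α (m : 𝓞 K))
    (hb : IsCoprime β (m : 𝓞 K)) : X m (α * β) = X m α + X m β := by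
  unfold X
  rw [← Multiset.sum_map_add]
  exact Xa_sum fun κ hκ => cs_mul (X_factor h3 hκ).1 (X_not_mem ha hκ) (X_not_mem hb hκ)

theorem X_congr {m : ℤ} (h3 : ¬ (3 : ℤ) ∣ m) {α β : 𝓞 K} (ha : IsCoprime α (m : 𝓞 K))
    (hab : (m : 𝓞 K) ∣ α - β) : X m α = X m β := by
  refine Xa_sum fun κ hκ => cs_congr (X_factor h3 hκ).1 (X_not_mem ha hκ) ?_
  exact Ideal.mem_of_dvd κ hab (X_factor h3 hκ).2

theorem X_one {m : ℤ} (h3 : ¬ (3 : ℤ) ∣ m) : X m 1 = 0 := by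
  unfold X
  rw [Xa_sum fun _ hκ => cs_one (X_factor h3 hκ).1]
  exact Multiset.sum_map_zero

theorem X_neg {m : ℤ} (h3 : ¬ (3 : ℤ) ∣ m) {α : 𝓞 K} (ha : IsCoprime α (m : 𝓞 K)) :
    X m (-α) = X m α :=
  Xa_sum fun κ hκ => cs_neg (X_factor h3 hκ).1 (X_not_mem ha hκ)

theorem X_pow {m : ℤ} (h3 : ¬ (3 : ℤ) ∣ m) {α : 𝓞 K} (ha : IsCoprime α (m : 𝓞 K)) (n : ℕ) :
    X m (α ^ n) = n * X m α := by
  induction n with
  | zero => rw [pow_zero, X_one h3, Nat.cast_zero, zero_mul]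
  | succ n ih =>
    rw [pow_succ, X_mul h3 ha.pow_left ha, ih, Nat.cast_succ, add_mul, one_mul]

end Pool.Agent.Lib.MP_1a91b9_ntX.R
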