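import Pool.Agent.Lib.MP_1a91b9_ntX.R.Xa

/-!
# R: the values of the symbol `X m` at the rational integers and at `ω`

PROOF (complete). `X_int`: let `S := normalizedFactors (span {m})`. `S.map cI = S`: both are multisets of prime ideals with
product `span {m}` (`Ideal.prod_normalizedFactors_eq_self` or `UniqueFactorizationMonoid.prod_normalizedFactors`, up to
associates, associated ideals are equal; `cI` is multiplicative (`cI_mul`), `cI (span {m}) = span {m}` by `cI_span` and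
`map_intCast`; the multiset of primes is determined by the product:
`UniqueFactorizationMonoid.normalizedFactors_prod_of_prime` or `Multiset.prod` uniqueness `prime_factors_unique` /
`UniqueFactorizationMonoid.factors_unique` with `associated_iff_eq`, `Multiset.rel_eq`). Hence
`X m n = ∑_{κ ∈ S} cs (cI κ) n = ∑ cs (cI κ) (cjr n) = -∑ cs κ n = -X m n`, and `2 = -1` is invertible in `ZMod 3`
(`c = -c → c = 0` by `decide`). `X_om`: for a multiset `S` of ideals `G3`, `∑_{κ ∈ S} (((N κ - 1) / 3 : ℕ) : ZMod 3) =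
(((N (S.prod) - 1) / 3 : ℕ) : ZMod 3)` by induction: if `N_1 = 1 + 3 a`, `N_2 = 1 + 3 b` then
`(N_1 N_2 - 1) / 3 = a + b + 3 a b`. With `cs_om`, and `N (span {m}) = m ^ 2` (`S4.u4_absNorm_p` for `m.natAbs`).
-/

set_option autoImplicit false

namespace Pool.Agent.Lib.MP_1a91b9_ntX.R

open NumberField IsDedekindDomain Pool.Agent.Lib.MP_1a91b9_ntT
open Pool.Agent.Lib.MP_1a91b9_ntT.S4 (omO omO_eq)

private theorem Xb_ne {m : ℤ} (h3 : ¬ (3 : ℤ) ∣ m) : Ideal.span {(m : 𝓞 K)} ≠ 0 := by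
  intro h
  have h1 : (m : 𝓞 K) = 0 := Ideal.span_singleton_eq_bot.1 h
  have h2 : m = 0 := by exact_mod_cast h1
  exact h3 (h2 ▸ dvd_zero 3)

private theorem Xb_prod {m : ℤ} (h3 : ¬ (3 : ℤ) ∣ m) :
    (UniqueFactorizationMonoid.normalizedFactors (Ideal.span {(m : 𝓞 K)})).prod =
      Ideal.span {(m : 𝓞 K)} :=
  associated_iff_eq.1 (UniqueFactorizationMonoid.prod_normalizedFactors (Xb_ne h3))

private theorem Xb_cI_prod (T : Multiset (Ideal (𝓞 K))) : cI T.prod = (T.map cI).prod := by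
  induction T using Multiset.induction_on with
  | empty =>
    rw [Multiset.prod_zero, Multiset.map_zero, Multiset.prod_zero]
    unfold cI
    rw [Ideal.one_eq_top, Ideal.map_top]
  | cons κ T ih =>
    rw [Multiset.prod_cons, Multiset.map_cons, Multiset.prod_cons, cI_mul, ih]

private theorem Xb_map {m : ℤ} (h3 : ¬ (3 : ℤ) ∣ m) :
    (UniqueFactorizationMonoid.normalizedFactors (Ideal.span {(m : 𝓞 K)})).map cI =
      UniqueFactorizationMonoid.normalizedFactors (Ideal.span {(m : 𝓞 K)}) := by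
  set S := UniqueFactorizationMonoid.normalizedFactors (Ideal.span {(m : 𝓞 K)}) with hS
  have h1 : ∀ p ∈ S.map cI, Prime p := by
    intro p hp
    obtain ⟨κ, hκ, rfl⟩ := Multiset.mem_map.1 hp
    have h2 := (X_factor h3 hκ).1.cI
    exact Ideal.prime_of_isPrime h2.ne h2.pr
  have h4 : (S.map cI).prod = Ideal.span {(m : 𝓞 K)} := by
    rw [← Xb_cI_prod, hS, Xb_prod h3, cI_span, map_intCast]
  have h5 := UniqueFactorizationMonoid.normalizedFactors_prod_of_prime h1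
  rw [h4] at h5
  exact h5.symm

private theorem Xb_absNorm (m : ℤ) :
    Ideal.absNorm (Ideal.span {(m : 𝓞 K)}) = m.natAbs ^ 2 := by
  have h1 : Ideal.span {(m : 𝓞 K)} = Ideal.span {((m.natAbs : ℕ) : 𝓞 K)} := by
    rcases Int.natAbs_eq m with h | h
    · have h2 : (m : 𝓞 K) = ((m.natAbs : ℕ) : 𝓞 K) := by
        conv_lhs => rw [h]
        rw [Int.cast_natCast]
      rw [h2]
    · have h2 : (m : 𝓞 K) = -((m.natAbs : ℕ) : 𝓞 K) := by
        conv_lhs => rw [h]
        rw [Int.cast_neg, Int.cast_natCast]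
      rw [h2, Ideal.span_singleton_neg]
  rw [h1, S4.u4_absNorm_p]

private theorem Xb_sum_om (T : Multiset (Ideal (𝓞 K))) (hT : ∀ κ ∈ T, G3 κ) :
    (∃ a : ℕ, Ideal.absNorm T.prod = 3 * a + 1) ∧
    (T.map (fun κ => (((Ideal.absNorm κ - 1) / 3 : ℕ) : ZMod 3))).sum =
      (((Ideal.absNorm T.prod - 1) / 3 : ℕ) : ZMod 3) := by
  induction T using Multiset.induction_on with
  | empty =>
    rw [Multiset.prod_zero, Multiset.map_zero, Multiset.sum_zero, map_one]
    exact ⟨⟨0, rfl⟩, by norm_num⟩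
  | cons κ T ih =>
    obtain ⟨⟨a, ha⟩, h2⟩ := ih fun κ' hκ' => hT κ' (Multiset.mem_cons_of_mem hκ')
    have h3 := hT κ (Multiset.mem_cons_self κ T)
    obtain ⟨b, hb⟩ := h3.dvd
    have h4 := h3.one_lt
    have h5 : Ideal.absNorm κ = 3 * b + 1 := by omega
    have h6 : Ideal.absNorm (κ ::ₘ T).prod = 3 * (a + b + 3 * a * b) + 1 := by
      rw [Multiset.prod_cons, map_mul, h5, ha]
      ring
    refine ⟨⟨_, h6⟩, ?_⟩
    rw [Multiset.map_cons, Multiset.sum_cons, h2, h6, h5, ha, Nat.add_sub_cancel, Nat.add_sub_cancel,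
      Nat.add_sub_cancel, Nat.mul_div_cancel_left _ (by norm_num), Nat.mul_div_cancel_left _ (by norm_num),
      Nat.mul_div_cancel_left _ (by norm_num)]
    push_cast
    have h7 : (3 : ZMod 3) = 0 := rfl
    rw [h7, zero_mul, zero_mul, add_zero, add_comm]

private theorem Xb_sum_norm {P : Ideal (𝓞 K)} (hP : G3 P) (T : Multiset (Ideal (𝓞 K)))
    (hT : ((Ideal.absNorm T.prod : ℕ) : 𝓞 K) ∉ P) :
    (T.map (fun κ => cs P ((Ideal.absNorm κ : ℕ) : 𝓞 K))).sum =
      cs P ((Ideal.absNorm T.prod : ℕ) : 𝓞 K) := by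
  induction T using Multiset.induction_on with
  | empty =>
    rw [Multiset.prod_zero, Multiset.map_zero, Multiset.sum_zero, map_one, Nat.cast_one, cs_one hP]
  | cons κ T ih =>
    have h1 : ((Ideal.absNorm (κ ::ₘ T).prod : ℕ) : 𝓞 K) =
        ((Ideal.absNorm κ : ℕ) : 𝓞 K) * ((Ideal.absNorm T.prod : ℕ) : 𝓞 K) := by
      rw [Multiset.prod_cons, map_mul, Nat.cast_mul]
    rw [h1] at hT ⊢
    have h2 : ((Ideal.absNorm κ : ℕ) : 𝓞 K) ∉ P := fun h => hT (P.mul_mem_right _ h)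
    have h3 : ((Ideal.absNorm T.prod : ℕ) : 𝓞 K) ∉ P := fun h => hT (P.mul_mem_left _ h)
    rw [Multiset.map_cons, Multiset.sum_cons, ih h3, cs_mul hP h2 h3]

private theorem Xb_cast (m : ℤ) : ((m.natAbs ^ 2 : ℕ) : 𝓞 K) = (m : 𝓞 K) ^ 2 := by
  have h1 : ((m.natAbs ^ 2 : ℕ) : ℤ) = m ^ 2 := by
    rw [Nat.cast_pow, Int.natAbs_sq]
  have h2 : (((m.natAbs ^ 2 : ℕ) : ℤ) : 𝓞 K) = ((m ^ 2 : ℤ) : 𝓞 K) := by rw [h1]
  rw [Int.cast_natCast, Int.cast_pow] at h2
  exact h2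

theorem X_int {m : ℤ} (h3 : ¬ (3 : ℤ) ∣ m) (n : ℤ) (hn : IsCoprime (n : 𝓞 K) (m : 𝓞 K)) :
    X m n = 0 := by
  have h1 : X m n = -X m n := by
    have h2 : X m n = ((UniqueFactorizationMonoid.normalizedFactors
        (Ideal.span {(m : 𝓞 K)})).map (fun κ => cs (cI κ) (n : 𝓞 K))).sum := by
      unfold X
      conv_lhs => rw [← Xb_map h3]
      rw [Multiset.map_map]
      rfl
    refine h2.trans ?_
    unfold X
    rw [← Multiset.sum_map_neg]
    refine congrArg Multiset.sum (Multiset.map_congr rfl fun κ hκ => ?_)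
    have h4 := cs_cI (X_factor h3 hκ).1 (X_not_mem hn hκ)
    rw [map_intCast] at h4
    exact h4
  have h5 : ∀ c : ZMod 3, c = -c → c = 0 := by decide
  exact h5 _ h1

theorem X_om {m : ℤ} (h3 : ¬ (3 : ℤ) ∣ m) :
    X m omO = (((m ^ 2 - 1) / 3 : ℤ) : ZMod 3) := by
  have hT : ∀ κ ∈ UniqueFactorizationMonoid.normalizedFactors (Ideal.span {(m : 𝓞 K)}), G3 κ :=
    fun κ hκ => (X_factor h3 hκ).1
  have h1 : X m omO = ((UniqueFactorizationMonoid.normalizedFactors
      (Ideal.span {(m : 𝓞 K)})).map (fun κ => (((Ideal.absNorm κ - 1) / 3 : ℕ) : ZMod 3))).sum := by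
    unfold X
    exact congrArg Multiset.sum (Multiset.map_congr rfl fun κ hκ => cs_om (hT κ hκ))
  obtain ⟨⟨a, ha⟩, h2⟩ := Xb_sum_om _ hT
  rw [Xb_prod h3, Xb_absNorm] at ha h2
  rw [h1, h2]
  have h4 : (m : ℤ) ^ 2 = 3 * a + 1 := by
    rw [← Int.natAbs_sq]
    exact_mod_cast ha
  rw [ha, h4, Nat.add_sub_cancel, Nat.mul_div_cancel_left _ (by norm_num), add_sub_cancel_right,
    Int.mul_ediv_cancel_left _ (by norm_num), Int.cast_natCast]

/-- the product of the norms of the prime factors -/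
theorem X_norm {m : ℤ} (h3 : ¬ (3 : ℤ) ∣ m) {P : Ideal (𝓞 K)} (hP : G3 P) (hm : (m : 𝓞 K) ∉ P) :
    ((UniqueFactorizationMonoid.normalizedFactors (Ideal.span {(m : 𝓞 K)})).map
      (fun κ => cs P ((Ideal.absNorm κ : ℕ) : 𝓞 K))).sum = 2 * cs P (m : 𝓞 K) := by
  have h1 : ((Ideal.absNorm (UniqueFactorizationMonoid.normalizedFactors
      (Ideal.span {(m : 𝓞 K)})).prod : ℕ) : 𝓞 K) = (m : 𝓞 K) ^ 2 := by
    rw [Xb_prod h3, Xb_absNorm, Xb_cast]
  have hpr := hP.pr
  have h2 : (m : 𝓞 K) ^ 2 ∉ P := fun h => hm (hpr.mem_of_pow_mem 2 h)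
  rw [Xb_sum_norm hP _ (by rw [h1]; exact h2), h1, cs_pow hP hm]
  norm_num

end Pool.Agent.Lib.MP_1a91b9_ntX.R
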